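import Pool.Agent.Helper427.Schur.Fun

set_option autoImplicit false

namespace Pool.Agent.Helper427.Schur

open Finsupp Polynomial

variable {C : Type} [CommGroup C]

section Pos

variable [Fintype C]

theorem coeff_bar_mul (x y : MonoidAlgebra ℤ C) :
    (bar x * y).coeff 1 = ∑ s, x.coeff s * y.coeff s := by
  classical
  induction x using MonoidAlgebra.induction_linear with
  | zero => simp
  | add x z hx hz =>
    rw [map_add, add_mul, MonoidAlgebra.coeff_add, Finsupp.add_apply, hx, hz,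
      ← Finset.sum_add_distrib]
    refine Finset.sum_congr rfl fun s _ => ?_
    rw [MonoidAlgebra.coeff_add, Finsupp.add_apply, add_mul]
  | single s r =>
    have h1 : bar (MonoidAlgebra.single s r) = MonoidAlgebra.single s⁻¹ r := by
      simp [bar]
    rw [h1, MonoidAlgebra.coeff_single_mul_apply, inv_inv, mul_one]
    rw [Finset.sum_eq_single s]
    · simp
    · intro b _ hb
      simp [hb.symm]
    · intro h
      exact absurd (Finset.mem_univ _) h

theorem coeff_bar_self (x : MonoidAlgebra ℤ C) : 0 ≤ (bar x * x).coeff 1 := by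
  rw [coeff_bar_mul]
  exact Finset.sum_nonneg fun s _ => mul_self_nonneg _

theorem coeff_bar_self_eq (x : MonoidAlgebra ℤ C) (h : (bar x * x).coeff 1 = 0) : x = 0 := by
  rw [coeff_bar_mul, Finset.sum_eq_zero_iff_of_nonneg fun s _ => mul_self_nonneg _] at h
  ext s
  simpa using h s (Finset.mem_univ _)

theorem coeff_bar_ww (t : C) (x : MonoidAlgebra ℤ C) (i : ℕ) :
    0 ≤ (bar x * (ww t ^ i * x)).coeff 1 := by
  have h1 : bar x * (ww t ^ i * x) =
      bar ((1 - MonoidAlgebra.of ℤ C t) ^ i * x) * ((1 - MonoidAlgebra.of ℤ C t) ^ i * x) := by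
    rw [ww_eq, mul_pow, map_mul, map_pow]
    ring
  rw [h1]
  exact coeff_bar_self _

theorem ff_nzd (t : C) (a b : ℤ[X]) (ha : ∀ i, 0 ≤ a.coeff i) (hb : ∀ i, 0 ≤ b.coeff i)
    (h0 : 0 < a.coeff 0 + b.coeff 0) (g : MonoidAlgebra ℤ C) (hg : ff t a b * g = 0) :
    g = 0 := by
  set P : ℤ[X] := 2 * a + (2 + X) * b with hP
  have hcoef : ∀ i, 0 ≤ P.coeff i := by
    intro i
    have e1 : P.coeff i = 2 * a.coeff i + 2 * b.coeff i + (X * b).coeff i := by
      have : P = Polynomial.C 2 * a + Polynomial.C 2 * b + X * b := by rw [hP]; simp only [map_ofNat]; ring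
      rw [this, coeff_add, coeff_add, coeff_C_mul, coeff_C_mul]
    have e2 : 0 ≤ (X * b).coeff i := by
      rcases i with _ | i
      · simp
      · rw [coeff_X_mul]; exact hb i
    rw [e1]
    have := ha i
    have := hb i
    positivity
  have hP0 : P.coeff 0 = 2 * (a.coeff 0 + b.coeff 0) := by
    have : P = Polynomial.C 2 * a + Polynomial.C 2 * b + X * b := by rw [hP]; simp only [map_ofNat]; ring
    rw [this, coeff_add, coeff_add, coeff_C_mul, coeff_C_mul, mul_coeff_zero, coeff_X_zero]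
    ring
  have hsum : ff t a b + bar (ff t a b) = aeval (ww t) P := by
    rw [hP, ff]
    simp only [map_add, map_mul, map_sub, bar_aeval, bar_of, aeval_X, map_ofNat]
    rw [ww]
    ring
  have h1 : bar g * (aeval (ww t) P * g) = 0 := by
    rw [← hsum]
    have : bar g * ((ff t a b + bar (ff t a b)) * g) =
        bar g * (ff t a b * g) + bar (ff t a b * g) * g := by
      rw [map_mul]; ring
    rw [this, hg, map_zero]
    ring
  have h2 : ∑ i ∈ Finset.range (P.natDegree + 1),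
      P.coeff i * (bar g * (ww t ^ i * g)).coeff 1 = 0 := by
    have h3 := congrArg (fun x : MonoidAlgebra ℤ C => x.coeff 1) h1
    simp only [aeval_eq_sum_range, Finset.sum_mul, Finset.mul_sum] at h3
    rw [MonoidAlgebra.coeff_sum, Finsupp.finsetSum_apply] at h3
    rw [← show ((0 : MonoidAlgebra ℤ C).coeff 1) = 0 from rfl, ← h3]
    refine Finset.sum_congr rfl fun i _ => ?_
    rw [smul_mul_assoc, mul_smul_comm, MonoidAlgebra.coeff_smul, Finsupp.smul_apply,
      smul_eq_mul]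
  rw [Finset.sum_eq_zero_iff_of_nonneg
    (fun i _ => mul_nonneg (hcoef i) (coeff_bar_ww t g i))] at h2
  have h4 := h2 0 (Finset.mem_range.2 (Nat.succ_pos _))
  rw [hP0, pow_zero, one_mul] at h4
  apply coeff_bar_self_eq
  rcases mul_eq_zero.1 h4 with h | h
  · omega
  · exact h

theorem ff_int (t : C) (a b : ℤ[X]) (ha : ∀ i, 0 ≤ a.coeff i) (hb : ∀ i, 0 ≤ b.coeff i)
    (h0 : 0 < a.coeff 0 + b.coeff 0) :
    ∃ (n : ℤ) (y : MonoidAlgebra ℤ C), n ≠ 0 ∧ (n : MonoidAlgebra ℤ C) = ff t a b * y := by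
  obtain ⟨P, hPm, hP⟩ := IsIntegral.of_finite ℤ (ff t a b)
  have hP0 : P ≠ 0 := hPm.ne_zero
  obtain ⟨Q, hQ, hQ'⟩ := P.exists_eq_pow_rootMultiplicity_mul_and_not_dvd hP0 0
  rw [map_zero, sub_zero] at hQ hQ'
  have h1 : ff t a b ^ (P.rootMultiplicity 0) * aeval (ff t a b) Q = 0 := by
    have : aeval (ff t a b) P = 0 := hP
    rw [hQ, map_mul, map_pow, aeval_X] at this
    exact this
  have h2 : ∀ (k : ℕ) (y : MonoidAlgebra ℤ C), ff t a b ^ k * y = 0 → y = 0 := by
    intro k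
    induction k with
    | zero => intro y hy; rwa [pow_zero, one_mul] at hy
    | succ k ih =>
      intro y hy
      rw [pow_succ, mul_assoc] at hy
      exact ff_nzd t a b ha hb h0 _ (ih _ hy)
  have h3 := h2 _ _ h1
  obtain ⟨Q', hQQ⟩ : ∃ Q', Q = X * Q' + Polynomial.C (Q.coeff 0) :=
    ⟨Q.divX, (X_mul_divX_add Q).symm⟩
  refine ⟨Q.coeff 0, - aeval (ff t a b) Q', ?_, ?_⟩
  · intro h
    exact hQ' (X_dvd_iff.2 h)
  · rw [hQQ] at h3
    simp only [map_add, map_mul, aeval_X, aeval_C] at h3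
    have h4 : ((algebraMap ℤ (MonoidAlgebra ℤ C)) (Q.coeff 0)) =
      ((Q.coeff 0 : ℤ) : MonoidAlgebra ℤ C) := by simp
    rw [h4] at h3
    linear_combination h3

end Pos

section Aug

/-- The augmentation. -/
noncomputable def eps : MonoidAlgebra ℤ C →+* ℤ :=
  (MonoidAlgebra.lift ℤ ℤ C (1 : C →* ℤ)).toRingHom

theorem eps_of (s : C) : eps (MonoidAlgebra.of ℤ C s) = 1 := by
  simp [eps]

theorem eps_ww (t : C) : eps (ww t) = 0 := by
  rw [ww, map_sub, map_sub, eps_of, eps_of, map_ofNat]; norm_num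

theorem eps_aeval (t : C) (g : ℤ[X]) : eps (aeval (ww t) g) = g.coeff 0 := by
  induction g using Polynomial.induction_on' with
  | add p q hp hq => rw [map_add, map_add, hp, hq, coeff_add]
  | monomial n r =>
    rw [aeval_monomial, map_mul, map_pow, eps_ww]
    rcases n with _ | n
    · simp
    · simp

theorem eps_ff (t : C) (a b : ℤ[X]) : eps (ff t a b) = a.coeff 0 + b.coeff 0 := by
  rw [ff, map_add, map_mul, eps_aeval, eps_aeval, map_sub, eps_of, map_ofNat]
  norm_num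

theorem aug (t : C) (hgen : ∀ s : C, ∃ i : ℕ, t ^ i = s) (x : MonoidAlgebra ℤ C) :
    ∃ y, x = (eps x : MonoidAlgebra ℤ C) + (MonoidAlgebra.of ℤ C t - 1) * y := by
  induction x using MonoidAlgebra.induction_on with
  | of m =>
    obtain ⟨i, rfl⟩ := hgen m
    rw [eps_of]
    induction i with
    | zero => exact ⟨0, by rw [pow_zero, map_one]; simp⟩
    | succ i ih =>
      obtain ⟨y, hy⟩ := ih
      refine ⟨MonoidAlgebra.of ℤ C t * y + 1, ?_⟩
      rw [pow_succ, map_mul, hy]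
      push_cast
      ring
  | add x y hx hy =>
    obtain ⟨x', hx⟩ := hx
    obtain ⟨y', hy⟩ := hy
    refine ⟨x' + y', ?_⟩
    rw [map_add, Int.cast_add]
    linear_combination hx + hy
  | smul r x hx =>
    obtain ⟨x', hx⟩ := hx
    refine ⟨(r : MonoidAlgebra ℤ C) * x', ?_⟩
    rw [map_zsmul, zsmul_eq_mul, smul_eq_mul, Int.cast_mul]
    linear_combination (r : MonoidAlgebra ℤ C) * hx

theorem ann [Fintype C] (t : C) (q : ℕ) (hgen : ∀ s : C, ∃ i : ℕ, t ^ i = s)
    (hq : (∑ i ∈ Finset.range q, MonoidAlgebra.of ℤ C t ^ i) = ∑ s : C, MonoidAlgebra.of ℤ C s)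
    (x : MonoidAlgebra ℤ C) (hx : (MonoidAlgebra.of ℤ C t - 1) * x = 0) :
    ∃ y, x = (∑ i ∈ Finset.range q, MonoidAlgebra.of ℤ C t ^ i) * y := by
  classical
  refine ⟨MonoidAlgebra.single 1 (x.coeff 1), ?_⟩
  rw [hq]
  have h1 : MonoidAlgebra.of ℤ C t * x = x := by linear_combination hx
  have h2 : ∀ s, x.coeff (t⁻¹ * s) = x.coeff s := by
    intro s
    have := congrArg (fun y : MonoidAlgebra ℤ C => y.coeff s) h1
    simp only [MonoidAlgebra.of_apply, MonoidAlgebra.coeff_single_mul_apply, one_mul] at this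
    exact this
  have h3 : ∀ i : ℕ, x.coeff (t ^ i) = x.coeff 1 := by
    intro i
    induction i with
    | zero => rw [pow_zero]
    | succ i ih => rw [← ih, ← h2 (t ^ (i + 1)), pow_succ', inv_mul_cancel_left]
  ext s
  obtain ⟨i, rfl⟩ := hgen s
  rw [h3, Finset.sum_mul, MonoidAlgebra.coeff_sum, Finsupp.finsetSum_apply,
    Finset.sum_eq_single (t ^ i)]
  · rw [MonoidAlgebra.of_apply, MonoidAlgebra.coeff_single_mul_apply, inv_mul_cancel]
    simp
  · intro b _ hb
    rw [MonoidAlgebra.of_apply, MonoidAlgebra.coeff_single_mul_apply]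
    have : b⁻¹ * t ^ i ≠ 1 := by
      intro h
      apply hb
      rw [inv_mul_eq_one] at h
      exact h
    simp [this.symm]
  · intro h
    exact absurd (Finset.mem_univ _) h

theorem cond_ii [Fintype C] (t : C) (q : ℕ) (hgen : ∀ s : C, ∃ i : ℕ, t ^ i = s)
    (hq : (∑ i ∈ Finset.range q, MonoidAlgebra.of ℤ C t ^ i) = ∑ s : C, MonoidAlgebra.of ℤ C s)
    (a b : ℤ[X]) (p : ℕ) (e s : ℕ) (he : a.coeff 0 + b.coeff 0 = (p : ℤ) ^ e) (hp : p ≠ 0)
    (hs : ∃ y z, (p : MonoidAlgebra ℤ C) ^ s = ff t a b * y +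
      (p : MonoidAlgebra ℤ C) ^ (e + s) * z)
    (g : MonoidAlgebra ℤ C)
    (hg : ∃ y z, (MonoidAlgebra.of ℤ C t - 1) * g = ff t a b * y +
      (p : MonoidAlgebra ℤ C) ^ (e + s) * z) :
    ∃ g' y z, g = (∑ i ∈ Finset.range q, MonoidAlgebra.of ℤ C t ^ i) * g' + (ff t a b * y +
      (p : MonoidAlgebra ℤ C) ^ (e + s) * z) := by
  obtain ⟨h, l, hhl⟩ := hg
  obtain ⟨y0, z0, h0⟩ := hs
  have e1 := congrArg eps hhl
  simp only [map_mul, map_sub, map_add, eps_of, map_one, sub_self, zero_mul, map_pow,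
    eps_ff, he, map_natCast] at e1
  have e2 : eps h = - (p : ℤ) ^ s * eps l := by
    have h3 : (p : ℤ) ^ e ≠ 0 := pow_ne_zero _ (by exact_mod_cast hp)
    apply mul_left_cancel₀ h3
    rw [pow_add] at e1
    linear_combination - e1
  obtain ⟨h1, hh1⟩ := aug t hgen h
  obtain ⟨l1, hl1⟩ := aug t hgen l
  obtain ⟨f1, hf1⟩ := aug t hgen (ff t a b)
  rw [eps_ff, he] at hf1
  rw [e2] at hh1
  push_cast at hh1 hf1
  have key : (MonoidAlgebra.of ℤ C t - 1) * (g + f1 * ((p : MonoidAlgebra ℤ C) ^ s * (eps l : ℤ)) -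
      (ff t a b * h1 + (p : MonoidAlgebra ℤ C) ^ (e + s) * l1)) = 0 := by
    linear_combination hhl + ff t a b * hh1 + (p : MonoidAlgebra ℤ C) ^ (e + s) * hl1 -
      ((p : MonoidAlgebra ℤ C) ^ s * (eps l : ℤ)) * hf1
  obtain ⟨y', hy'⟩ := ann t q hgen hq _ key
  refine ⟨y', h1 - (y0 * f1) * (eps l : ℤ), l1 - z0 * f1 * (eps l : ℤ), ?_⟩
  linear_combination hy' - (f1 * (eps l : ℤ)) * h0

end Aug

end Pool.Agent.Helper427.Schur
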