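import Pool.Agent.Helper427.Schur.Hom

set_option autoImplicit false

namespace Pool.Agent.Helper427.Schur

open Polynomial

/-- The first `n` terms of `E` are monic of degrees `0, 1, ..., n - 1`. -/
def MS (n : ℕ) (E : ℕ → ℤ[X]) : Prop := ∀ i < n, (E i).Monic ∧ (E i).natDegree = i

theorem ms_span (n : ℕ) (E : ℕ → ℤ[X]) (hE : MS n E) (r : ℤ[X]) (hr : r.degree < n) :
    ∃ c : ℕ → ℤ, r = ∑ i ∈ Finset.range n, C (c i) * E i := by
  induction n generalizing r with
  | zero =>
    refine ⟨fun _ => 0, ?_⟩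
    have : r = 0 := by
      rw [← degree_eq_bot]
      exact Nat.WithBot.lt_zero_iff.1 hr
    simp [this]
  | succ n ih =>
    obtain ⟨h1, h2⟩ := hE n (Nat.lt_succ_self n)
    obtain ⟨c, hc⟩ := ih (fun i hi => hE i (Nat.lt_succ_of_lt hi)) (r - C (r.coeff n) * E n) (by
      rw [degree_lt_iff_coeff_zero] at hr ⊢
      intro m hm
      rw [coeff_sub, coeff_C_mul]
      rcases Nat.lt_or_ge n m with h | h
      · rw [hr m h, coeff_eq_zero_of_natDegree_lt (p := E n) (by rw [h2]; exact h)]
        ring
      · have h3 : m = n := le_antisymm h hm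
        subst h3
        have h4 : (E m).coeff m = 1 := by
          have := h1.coeff_natDegree
          rwa [h2] at this
        rw [h4]
        ring)
    refine ⟨fun i => if i < n then c i else r.coeff n, ?_⟩
    rw [Finset.sum_range_succ]
    simp only [lt_irrefl, if_false]
    rw [sub_eq_iff_eq_add] at hc
    rw [hc]
    have h5 : ∑ i ∈ Finset.range n, C (c i) * E i =
      ∑ i ∈ Finset.range n, C (if i < n then c i else
        (∑ i ∈ Finset.range n, C (c i) * E i + C (r.coeff n) * E n).coeff n) * E i := by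
      refine Finset.sum_congr rfl fun i hi => ?_
      rw [if_pos (Finset.mem_range.1 hi)]
    rw [← hc] at h5 ⊢
    rw [← h5]
    exact hc

theorem ms_deg (n : ℕ) (E : ℕ → ℤ[X]) (hE : MS n E) (c : ℕ → ℤ) :
    (∑ i ∈ Finset.range n, C (c i) * E i).degree < n := by
  rw [degree_lt_iff_coeff_zero]
  intro m hm
  rw [finsetSum_coeff]
  refine Finset.sum_eq_zero fun i hi => ?_
  have hi' := Finset.mem_range.1 hi
  rw [coeff_C_mul, coeff_eq_zero_of_natDegree_lt (by rw [(hE i hi').2]; omega), mul_zero]

theorem ms_uniq (n : ℕ) (E : ℕ → ℤ[X]) (hE : MS n E) (c : ℕ → ℤ)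
    (h : ∑ i ∈ Finset.range n, C (c i) * E i = 0) : ∀ i < n, c i = 0 := by
  induction n with
  | zero => intro i hi; omega
  | succ n ih =>
    obtain ⟨h1, h2⟩ := hE n (Nat.lt_succ_self n)
    have hE' : MS n E := fun i hi => hE i (Nat.lt_succ_of_lt hi)
    have h3 : c n = 0 := by
      have h4 := congrArg (fun x => coeff x n) h
      simp only [coeff_zero] at h4
      rw [Finset.sum_range_succ, coeff_add,
        (degree_lt_iff_coeff_zero _ _).1 (ms_deg n E hE' c) n le_rfl, coeff_C_mul] at h4
      have h5 : (E n).coeff n = 1 := by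
        have := h1.coeff_natDegree
        rwa [h2] at this
      rw [h5] at h4
      omega
    rw [Finset.sum_range_succ, h3, C_0, zero_mul, add_zero] at h
    intro i hi
    rcases Nat.lt_succ_iff_lt_or_eq.1 hi with h6 | h6
    · exact ih hE' h i h6
    · rw [h6, h3]

/-- The invariants of the pairs of polynomials. -/
structure Gd (p : ℕ) (u v : ℤ[X]) (n : ℕ) (α : ℕ → ℕ) : Prop where
  monic : u.Monic
  deg : u.natDegree = n
  degv : v.degree < n
  pu : ∃ r : ℤ[X], u = X ^ n + C (p : ℤ) * r
  pv : ∃ r : ℤ[X], v = C (p : ℤ) * r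
  nu : ∀ i, 0 ≤ u.coeff i
  nv : ∀ i, 0 ≤ v.coeff i
  const : ∃ e : ℕ, (u.coeff 0 = (p : ℤ) ^ e ∧ v.coeff 0 = 0) ∨
    (u.coeff 0 = 0 ∧ v.coeff 0 = (p : ℤ) ^ e)
  pow : ∃ γ : ℕ, C ((p : ℤ) ^ γ) ∈ Ideal.span {u, v}
  tors : ∃ E : ℕ → ℤ[X], MS n E ∧ ∀ c : ℕ → ℤ,
    ((∑ i ∈ Finset.range n, C (c i) * E i ∈ Ideal.span {u, v}) ↔
      ∀ i < n, (p : ℤ) ^ α i ∣ c i)

theorem gd_zero (p : ℕ) (α : ℕ → ℕ) : Gd p 1 0 0 α where
  monic := monic_one
  deg := natDegree_one
  degv := by rw [degree_zero]; exact WithBot.bot_lt_coe 0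
  pu := ⟨0, by simp⟩
  pv := ⟨0, by simp⟩
  nu i := by rw [coeff_one]; split_ifs <;> norm_num
  nv i := by simp
  const := ⟨0, Or.inl (by simp)⟩
  pow := ⟨0, by
    rw [Ideal.mem_span_pair]
    exact ⟨1, 0, by simp⟩⟩
  tors := ⟨fun _ => 0, fun i hi => by omega, fun c => by simp⟩

theorem mem_u (u v : ℤ[X]) : u ∈ Ideal.span {u, v} := Ideal.subset_span (by simp)
theorem mem_v (u v : ℤ[X]) : v ∈ Ideal.span {u, v} := Ideal.subset_span (by simp)

theorem gd_step (p : ℕ) (u v : ℤ[X]) (n : ℕ) (α : ℕ → ℕ) (h : Gd p u v n α) (m δ : ℕ)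
    (hm : 1 ≤ m) (hδ : 1 ≤ δ) :
    Gd p (X ^ m * u + v) (C ((p : ℤ) ^ δ) * u) (n + m)
      (fun i => if i < n then α i + δ else δ) := by
  have hdegu : u.degree = n := by
    rw [degree_eq_natDegree h.monic.ne_zero, h.deg]
  have hXu : (X ^ m * u).Monic := (monic_X_pow m).mul h.monic
  have hdXu : (X ^ m * u).natDegree = n + m := by
    rw [(monic_X_pow m).natDegree_mul h.monic, natDegree_X_pow, h.deg, add_comm]
  have hdXu' : (X ^ m * u).degree = ((n + m : ℕ) : WithBot ℕ) := by
    rw [degree_eq_natDegree hXu.ne_zero, hdXu]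
  have hlt : v.degree < (X ^ m * u).degree := by
    rw [hdXu']
    refine lt_of_lt_of_le h.degv ?_
    exact_mod_cast Nat.le_add_right n m
  have hmon : (X ^ m * u + v).Monic := hXu.add_of_left hlt
  have hdeg' : (X ^ m * u + v).degree = ((n + m : ℕ) : WithBot ℕ) := by
    rw [degree_add_eq_left_of_degree_lt hlt, hdXu']
  have hdeg : (X ^ m * u + v).natDegree = n + m := by
    rw [natDegree_eq_of_degree_eq_some hdeg']
  set J := Ideal.span {u, v} with hJ
  set u' := X ^ m * u + v with hu'
  set v' := C ((p : ℤ) ^ δ) * u with hv'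
  set J' := Ideal.span {u', v'} with hJ'
  have huJ : u ∈ J := mem_u u v
  have hvJ : v ∈ J := mem_v u v
  have hu'J : u' ∈ J := J.add_mem (J.mul_mem_left _ huJ) hvJ
  have hu'J' : u' ∈ J' := mem_u u' v'
  have hv'J' : v' ∈ J' := mem_v u' v'
  have hmul : ∀ x ∈ J, C ((p : ℤ) ^ δ) * x ∈ J' := by
    intro x hx
    obtain ⟨a, b, rfl⟩ := Ideal.mem_span_pair.1 hx
    have : C ((p : ℤ) ^ δ) * (a * u + b * v) =
        (a - b * X ^ m) * v' + (C ((p : ℤ) ^ δ) * b) * u' := by
      rw [hu', hv']; ring
    rw [this]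
    exact J'.add_mem (J'.mul_mem_left _ hv'J') (J'.mul_mem_left _ hu'J')
  have hpδ : C ((p : ℤ) ^ δ) = C (p : ℤ) * C ((p : ℤ) ^ (δ - 1)) := by
    rw [← C_mul, ← pow_succ']
    congr 2
    omega
  obtain ⟨e, he⟩ := h.const
  obtain ⟨γ, hγ⟩ := h.pow
  obtain ⟨E, hE, hT⟩ := h.tors
  obtain ⟨r, hr⟩ := h.pu
  obtain ⟨r', hr'⟩ := h.pv
  refine ⟨hmon, hdeg, ?_, ?_, ?_, ?_, ?_, ?_, ?_, ?_⟩
  · rw [degree_lt_iff_coeff_zero]
    intro j hj
    rw [hv', coeff_C_mul, coeff_eq_zero_of_natDegree_lt (p := u) (by rw [h.deg]; omega), mul_zero]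
  · refine ⟨X ^ m * r + r', ?_⟩
    rw [hu', hr, hr', pow_add]
    ring
  · exact ⟨C ((p : ℤ) ^ (δ - 1)) * u, by rw [hv', hpδ]; ring⟩
  · intro i
    rw [hu', coeff_add, coeff_X_pow_mul']
    have := h.nv i
    split_ifs
    · have := h.nu (i - m)
      positivity
    · positivity
  · intro i
    rw [hv', coeff_C_mul]
    have := h.nu i
    positivity
  · have h1 : u'.coeff 0 = v.coeff 0 := by
      rw [hu', coeff_add, coeff_X_pow_mul', if_neg (by omega), zero_add]
    have h2 : v'.coeff 0 = (p : ℤ) ^ δ * u.coeff 0 := by rw [hv', coeff_C_mul]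
    rw [h1, h2]
    rcases he with ⟨h3, h4⟩ | ⟨h3, h4⟩
    · exact ⟨δ + e, Or.inr ⟨h4, by rw [h3, pow_add]⟩⟩
    · exact ⟨e, Or.inl ⟨h4, by rw [h3, mul_zero]⟩⟩
  · exact ⟨δ + γ, by rw [pow_add, C_mul]; exact hmul _ hγ⟩
  · set E' : ℕ → ℤ[X] := fun i => if i < n then E i else X ^ (i - n) * u with hE'
    have hMS : MS (n + m) E' := by
      intro i hi
      simp only [hE']
      split_ifs with h1
      · exact hE i h1
      · refine ⟨(monic_X_pow _).mul h.monic, ?_⟩
        rw [(monic_X_pow _).natDegree_mul h.monic, natDegree_X_pow, h.deg]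
        omega
    have hsum : ∀ c : ℕ → ℤ, ∑ i ∈ Finset.range (n + m), C (c i) * E' i =
        ∑ i ∈ Finset.range n, C (c i) * E i +
          (∑ i ∈ Finset.range m, C (c (n + i)) * X ^ i) * u := by
      intro c
      rw [Finset.sum_range_add, Finset.sum_mul]
      congr 1
      · refine Finset.sum_congr rfl fun i hi => ?_
        simp only [hE', if_pos (Finset.mem_range.1 hi)]
      · refine Finset.sum_congr rfl fun i hi => ?_
        simp only [hE', if_neg (by omega : ¬ n + i < n), Nat.add_sub_cancel_left, mul_assoc]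
    refine ⟨E', hMS, fun c => ⟨?_, ?_⟩⟩
    · intro hmem
      obtain ⟨x, y, hxy⟩ := Ideal.mem_span_pair.1 hmem
      set r0 := (y * u) %ₘ u' with hr0
      have hdiv : r0 + u' * ((y * u) /ₘ u') = y * u := modByMonic_add_div _ _
      have hr0J : r0 ∈ J := by
        have : r0 = y * u - ((y * u) /ₘ u') * u' := by
          linear_combination hdiv
        rw [this]
        exact J.sub_mem (J.mul_mem_left _ huJ) (J.mul_mem_left _ hu'J)
      have hr0d : r0.degree < ((n + m : ℕ) : WithBot ℕ) := by
        rw [← hdeg']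
        exact degree_modByMonic_lt _ hmon
      obtain ⟨d, hd⟩ := ms_span (n + m) E' hMS r0 hr0d
      have h1 : (∑ i ∈ Finset.range (n + m), C (c i) * E' i) - C ((p : ℤ) ^ δ) * r0 =
          u' * (x + C ((p : ℤ) ^ δ) * ((y * u) /ₘ u')) := by
        have h3 : C ((p : ℤ) ^ δ) * r0 = C ((p : ℤ) ^ δ) * (y * u) -
            C ((p : ℤ) ^ δ) * (u' * ((y * u) /ₘ u')) := by
          linear_combination (C ((p : ℤ) ^ δ)) * hdiv
        rw [← hxy, h3, hv']
        ring
      have h2 : (∑ i ∈ Finset.range (n + m), C (c i) * E' i) - C ((p : ℤ) ^ δ) * r0 =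
          ∑ i ∈ Finset.range (n + m), C (c i - (p : ℤ) ^ δ * d i) * E' i := by
        conv_lhs => rw [hd]
        rw [Finset.mul_sum, ← Finset.sum_sub_distrib]
        refine Finset.sum_congr rfl fun i _ => ?_
        rw [C_sub, C_mul]
        ring
      have h3 : ∑ i ∈ Finset.range (n + m), C (c i - (p : ℤ) ^ δ * d i) * E' i = 0 := by
        by_contra hne
        have h4 := ms_deg (n + m) E' hMS (fun i => c i - (p : ℤ) ^ δ * d i)
        rw [← hdeg'] at h4
        refine hmon.not_dvd_of_degree_lt hne h4 ?_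
        rw [← h2, h1]
        exact dvd_mul_right _ _
      have h5 := ms_uniq (n + m) E' hMS _ h3
      have h6 : ∑ i ∈ Finset.range n, C (d i) * E i ∈ J := by
        have := hsum d
        rw [← hd] at this
        have h7 : ∑ i ∈ Finset.range n, C (d i) * E i = r0 -
            (∑ i ∈ Finset.range m, C (d (n + i)) * X ^ i) * u := by
          rw [this]; ring
        rw [h7]
        exact J.sub_mem hr0J (J.mul_mem_left _ huJ)
      have h8 := (hT d).1 h6
      intro i hi
      have h9 := h5 i hi
      have h10 : c i = (p : ℤ) ^ δ * d i := by linarith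
      rw [h10]
      split_ifs with hin
      · rw [pow_add, mul_comm]
        exact mul_dvd_mul_left _ (h8 i hin)
      · exact dvd_mul_right _ _
    · intro hdvd
      have h1 : ∀ i, ∃ d : ℤ, i < n + m → c i = (p : ℤ) ^ δ * d ∧ (i < n → (p : ℤ) ^ α i ∣ d) := by
        intro i
        by_cases hi : i < n + m
        · have h2 := hdvd i hi
          by_cases hin : i < n
          · rw [if_pos hin] at h2
            obtain ⟨d, hd⟩ := h2
            refine ⟨(p : ℤ) ^ α i * d, fun _ => ⟨?_, fun _ => dvd_mul_right _ _⟩⟩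
            rw [hd, pow_add]; ring
          · rw [if_neg hin] at h2
            obtain ⟨d, hd⟩ := h2
            exact ⟨d, fun _ => ⟨hd, fun h => absurd h hin⟩⟩
        · exact ⟨0, fun h => absurd h hi⟩
      choose d hd using h1
      have h2 : ∑ i ∈ Finset.range (n + m), C (c i) * E' i =
          C ((p : ℤ) ^ δ) * ∑ i ∈ Finset.range (n + m), C (d i) * E' i := by
        rw [Finset.mul_sum]
        refine Finset.sum_congr rfl fun i hi => ?_
        rw [(hd i (Finset.mem_range.1 hi)).1, C_mul]
        ring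
      rw [h2]
      refine hmul _ ?_
      rw [hsum]
      refine J.add_mem ?_ (J.mul_mem_left _ huJ)
      refine (hT d).2 fun i hi => (hd i (by omega)).2 hi

theorem exists_gd (p : ℕ) (s : Multiset ℕ) (hs : ∀ x ∈ s, 1 ≤ x) :
    ∃ u v n α, Gd p u v n α ∧ (Multiset.range n).map α = s := by
  induction hk : s.card using Nat.strong_induction_on generalizing s with
  | _ k ih =>
    rcases s.empty_or_exists_mem with h0 | ⟨x0, hx0⟩
    · exact ⟨1, 0, 0, fun _ => 0, gd_zero p _, by simp [h0]⟩
    · have hne : s.toFinset.Nonempty := ⟨x0, Multiset.mem_toFinset.2 hx0⟩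
      set δ := s.toFinset.min' hne with hδ
      have hδs : δ ∈ s := Multiset.mem_toFinset.1 (Finset.min'_mem _ _)
      have hmin : ∀ x ∈ s, δ ≤ x := fun x hx =>
        Finset.min'_le _ _ (Multiset.mem_toFinset.2 hx)
      set s1 := s.filter (fun x => ¬ x = δ) with hs1
      have hdec : Multiset.replicate (s.count δ) δ + s1 = s := by
        rw [← Multiset.filter_eq']
        exact Multiset.filter_add_not _ s
      have hcount : 1 ≤ s.count δ := Multiset.one_le_count_iff_mem.2 hδs
      have hcard : s1.card < k := by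
        have := congrArg Multiset.card hdec
        rw [Multiset.card_add, Multiset.card_replicate, hk] at this
        omega
      obtain ⟨u, v, n, α, hg, hα⟩ := ih (s1.map (fun x => x - δ)).card
        (by rw [Multiset.card_map]; exact hcard) (s1.map (fun x => x - δ)) (by
          intro x hx
          obtain ⟨y, hy, rfl⟩ := Multiset.mem_map.1 hx
          obtain ⟨hy1, hy2⟩ := Multiset.mem_filter.1 hy
          have := hmin y hy1
          omega) rfl
      refine ⟨_, _, _, _, gd_step p u v n α hg (s.count δ) δ hcount (hs δ hδs), ?_⟩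
      have h1 : Multiset.range (n + s.count δ) = Multiset.range n +
          (Multiset.range (s.count δ)).map (fun x => n + x) := Multiset.range_add n _
      rw [h1, Multiset.map_add, Multiset.map_map]
      have h2 : (Multiset.range n).map (fun i => if i < n then α i + δ else δ) = s1 := by
        have h3 : (Multiset.range n).map (fun i => if i < n then α i + δ else δ) =
            ((Multiset.range n).map α).map (fun x => x + δ) := by
          rw [Multiset.map_map]
          refine Multiset.map_congr rfl fun i hi => ?_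
          simp only [Function.comp_apply, if_pos (Multiset.mem_range.1 hi)]
        rw [h3, hα, Multiset.map_map]
        conv_rhs => rw [← Multiset.map_id s1]
        refine Multiset.map_congr rfl fun x hx => ?_
        have := hmin x (Multiset.mem_filter.1 hx).1
        simp only [Function.comp_apply, id]
        omega
      have h4 : (Multiset.range (s.count δ)).map ((fun i => if i < n then α i + δ else δ) ∘
          (fun x => n + x)) = Multiset.replicate (s.count δ) δ := by
        have h5 : (Multiset.range (s.count δ)).map ((fun i => if i < n then α i + δ else δ) ∘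
            (fun x => n + x)) = (Multiset.range (s.count δ)).map (fun _ => δ) := by
          refine Multiset.map_congr rfl fun i _ => ?_
          simp only [Function.comp_apply, if_neg (by omega : ¬ n + i < n)]
        rw [h5, Multiset.map_const', Multiset.card_range]
      rw [h2, h4, add_comm]
      exact hdec

theorem gd_iso (p : ℕ) (u v : ℤ[X]) (n : ℕ) (α : ℕ → ℕ) (h : Gd p u v n α) :
    Nonempty ((∀ i : Fin n, ZMod (p ^ α i)) ≃+ ℤ[X] ⧸ Ideal.span {u, v}) := by
  obtain ⟨E, hE, hT⟩ := h.tors
  let f : (Fin n → ℤ) →+ (∀ i : Fin n, ZMod (p ^ α i)) :=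
    { toFun := fun c i => (c i : ZMod (p ^ α i))
      map_zero' := by ext; simp
      map_add' := fun x y => by ext; simp }
  let g : (Fin n → ℤ) →+ ℤ[X] ⧸ Ideal.span {u, v} :=
    { toFun := fun c => Ideal.Quotient.mk _ (∑ i : Fin n, C (c i) * E i)
      map_zero' := by simp
      map_add' := fun x y => by
        rw [← map_add, ← Finset.sum_add_distrib]
        congr 1
        refine Finset.sum_congr rfl fun i _ => ?_
        rw [Pi.add_apply, C_add]; ring }
  refine iso_of_ker f g ?_ ?_ ?_
  · intro y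
    choose c hc using fun i => ZMod.intCast_surjective (y i)
    exact ⟨c, funext hc⟩
  · intro y
    obtain ⟨x, rfl⟩ := Ideal.Quotient.mk_surjective y
    have hd : (x %ₘ u).degree < n := by
      have := degree_modByMonic_lt x h.monic
      rwa [degree_eq_natDegree h.monic.ne_zero, h.deg] at this
    obtain ⟨c, hc⟩ := ms_span n E hE _ hd
    refine ⟨fun i => c i, ?_⟩
    change Ideal.Quotient.mk _ (∑ i : Fin n, C (c i) * E i) = _
    rw [← Finset.sum_range (fun i => C (c i) * E i), ← hc]
    refine Ideal.Quotient.eq.2 ?_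
    have h1 := modByMonic_add_div x u
    have h2 : x %ₘ u - x = (-(x /ₘ u)) * u := by
      linear_combination h1
    rw [h2]
    exact Ideal.mul_mem_left _ _ (mem_u u v)
  · intro c
    set c' : ℕ → ℤ := fun i => if hi : i < n then c ⟨i, hi⟩ else 0 with hc'
    have hcc : ∀ i : Fin n, c' i = c i := fun i => by simp [hc']
    have h1 : g c = Ideal.Quotient.mk _ (∑ i ∈ Finset.range n, C (c' i) * E i) := by
      rw [Finset.sum_range (fun i => C (c' i) * E i)]
      simp only [hcc]
      rfl
    rw [h1, Ideal.Quotient.eq_zero_iff_mem, hT]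
    constructor
    · intro hf i hi
      have h2 : (c ⟨i, hi⟩ : ZMod (p ^ α i)) = 0 := congrFun hf ⟨i, hi⟩
      rw [← hcc ⟨i, hi⟩, ZMod.intCast_zmod_eq_zero_iff_dvd] at h2
      exact_mod_cast h2
    · intro hd
      funext i
      have h2 := hd i i.2
      rw [hcc] at h2
      change (c i : ZMod (p ^ α i)) = 0
      rw [ZMod.intCast_zmod_eq_zero_iff_dvd]
      exact_mod_cast h2

end Pool.Agent.Helper427.Schur
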