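import Pool.Agent.Helper427.Schur.Low
import Pool.Agent.Helper427.Schur.Ann
import Pool.Agent.Helper427.Schur.Poly

set_option autoImplicit false

namespace Pool.Agent.Helper427.Schur

open Finsupp Polynomial

theorem unip {Q : Type} [CommRing Q] (p : ℕ) (hp : IsNilpotent (p : Q)) (u : Q)
    (hu : IsNilpotent (u - 1)) : ∃ m0 : ℕ, ∀ m, m0 ≤ m → u ^ (p ^ m) = 1 := by
  set J : Ideal Q := Ideal.span {(p : Q), u - 1} with hJ
  have hpJ : (p : Q) ∈ J := Ideal.subset_span (by simp)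
  have huJ : u - 1 ∈ J := Ideal.subset_span (by simp)
  have hnil : IsNilpotent J := by
    rw [Ideal.FG.isNilpotent_iff_le_nilradical
      ((Submodule.fg_span (by simp)))]
    rw [Submodule.span_le]
    rintro x (rfl | rfl)
    · exact hp
    · exact hu
  obtain ⟨M, hM⟩ := hnil
  have key : ∀ m, u ^ (p ^ m) - 1 ∈ J ^ (m + 1) := by
    intro m
    induction m with
    | zero => simpa using huJ
    | succ m ih =>
      set y := u ^ (p ^ m) with hy
      have h1 : u ^ (p ^ (m + 1)) - 1 = (∑ i ∈ Finset.range p, y ^ i) * (y - 1) := by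
        rw [geom_sum_mul, hy, ← pow_mul, ← pow_succ]
      have h2 : y - 1 ∈ J := (Ideal.pow_le_self (by omega)) ih
      have h3 : (∑ i ∈ Finset.range p, y ^ i) ∈ J := by
        rw [← Ideal.Quotient.eq_zero_iff_mem, map_sum]
        have h4 : Ideal.Quotient.mk J y = 1 := by
          rw [← sub_eq_zero, ← map_one (Ideal.Quotient.mk J), ← map_sub]
          exact Ideal.Quotient.eq_zero_iff_mem.2 h2
        simp only [map_pow, h4, one_pow, Finset.sum_const, Finset.card_range, nsmul_eq_mul,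
          mul_one]
        have := Ideal.Quotient.eq_zero_iff_mem.2 hpJ
        rwa [map_natCast] at this
      rw [h1, pow_succ' J (m + 1)]
      exact Ideal.mul_mem_mul h3 ih
  refine ⟨M, fun m hm => ?_⟩
  have h1 : u ^ (p ^ m) - 1 ∈ J ^ M := Ideal.pow_le_pow_right (by omega) (key m)
  rw [hM] at h1
  have : u ^ (p ^ m) - 1 = 0 := by simpa using h1
  linear_combination this

/-- The conditions on the pair of polynomials. -/
structure Ab (p : ℕ) (a b : ℤ[X]) : Prop where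
  na : ∀ i, 0 ≤ a.coeff i
  nb : ∀ i, 0 ≤ b.coeff i
  const : ∃ e : ℕ, a.coeff 0 + b.coeff 0 = (p : ℤ) ^ e
  pow : ∃ γ : ℕ, C ((p : ℤ) ^ γ) ∈ Ideal.span {a, b}
  xn : ∃ (n : ℕ) (r s t : ℤ[X]), X ^ n = C (p : ℤ) * r + (a + b) * s + (X * b) * t

theorem Gd.ab {p : ℕ} {u v : ℤ[X]} {n : ℕ} {α : ℕ → ℕ} (h : Gd p u v n α) : Ab p u v where
  na := h.nu
  nb := h.nv
  const := by
    obtain ⟨e, ⟨h1, h2⟩ | ⟨h1, h2⟩⟩ := h.const
    · exact ⟨e, by rw [h1, h2, add_zero]⟩
    · exact ⟨e, by rw [h1, h2, zero_add]⟩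
  pow := h.pow
  xn := by
    obtain ⟨r, hr⟩ := h.pu
    obtain ⟨r', hr'⟩ := h.pv
    exact ⟨n, -(r + r'), 1, 0, by linear_combination -hr - hr'⟩

theorem ab_zero (p : ℕ) (hp : 1 ≤ p) : Ab p (C ((p : ℤ) - 1)) 1 where
  na i := by
    rw [coeff_C]
    split_ifs
    · have : (1 : ℤ) ≤ p := by exact_mod_cast hp
      linarith
    · exact le_rfl
  nb i := by rw [coeff_one]; split_ifs <;> norm_num
  const := ⟨1, by simp⟩
  pow := ⟨0, by
    rw [Ideal.mem_span_pair]
    exact ⟨0, 1, by simp⟩⟩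
  xn := ⟨1, 0, 0, 1, by simp⟩

section Spec

variable (a b : ℤ[X])

/-- The specialization ring. -/
abbrev SS := ℤ[X] ⧸ Ideal.span {a + b, X * b}

/-- The class of `X`. -/
noncomputable abbrev xi : SS a b := Ideal.Quotient.mk _ X

theorem aeval_hom {S : Type} [CommRing S] (f : ℤ[X] →+* S) (g : ℤ[X]) :
    aeval (f X) g = f g := by
  induction g using Polynomial.induction_on' with
  | add p q hp hq => rw [map_add, map_add, hp, hq]
  | monomial n r =>
    rw [aeval_monomial, ← C_mul_X_pow_eq_monomial, map_mul, map_pow]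
    simp

theorem mem1 : a + b ∈ Ideal.span {a + b, X * b} := Ideal.subset_span (by simp)
theorem mem2 : X * b ∈ Ideal.span {a + b, X * b} := Ideal.subset_span (by simp)

variable {a b} {p : ℕ} (h : Ab p a b)

include h

theorem p_nil : IsNilpotent (p : SS a b) := by
  obtain ⟨γ, hγ⟩ := h.pow
  obtain ⟨e, he⟩ := h.const
  obtain ⟨x, y, hxy⟩ := Ideal.mem_span_pair.1 hγ
  have hz := X_mul_divX_add (y - x)
  have hk := X_mul_divX_add (a + b)
  set z := (y - x).divX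
  set c := (y - x).coeff 0
  set k := (a + b).divX
  rw [coeff_add, he] at hk
  refine ⟨γ + e, ?_⟩
  have h1 : (C ((p : ℤ) ^ (γ + e)) : ℤ[X]) ∈ Ideal.span {a + b, X * b} := by
    rw [Ideal.mem_span_pair]
    refine ⟨C ((p : ℤ) ^ e) * x + C c * b, C ((p : ℤ) ^ e) * z - C c * k, ?_⟩
    rw [pow_add, C_mul]
    linear_combination (C ((p : ℤ) ^ e)) * hxy + (C ((p : ℤ) ^ e) * b) * hz - (C c * b) * hk
  have h2 := Ideal.Quotient.eq_zero_iff_mem.2 h1
  rw [C_pow, map_pow] at h2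
  have h3 : (Ideal.Quotient.mk (Ideal.span {a + b, X * b})) (C (p : ℤ)) = (p : SS a b) := by
    simp
  rwa [h3] at h2

theorem xi_nil : IsNilpotent (xi a b) := by
  obtain ⟨n, r, s, t, hn⟩ := h.xn
  have h1 : (xi a b) ^ n = (p : SS a b) * Ideal.Quotient.mk _ r := by
    rw [← map_pow, hn, map_add, map_add, map_mul, map_mul, map_mul,
      Ideal.Quotient.eq_zero_iff_mem.2 (mem1 a b), Ideal.Quotient.eq_zero_iff_mem.2 (mem2 a b)]
    simp
  have h2 : IsNilpotent ((xi a b) ^ n) := by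
    rw [h1]
    exact (Commute.all _ _).isNilpotent_mul_right (p_nil h)
  obtain ⟨k, hk⟩ := h2
  exact ⟨n * k, by rw [pow_mul]; exact hk⟩

theorem om_pow : ∃ m0 : ℕ, ∀ m, m0 ≤ m → (om0 (xi a b)) ^ (p ^ m) = 1 := by
  apply unip p
  · have := (p_nil h).map (algebraMap (SS a b) (QQ (xi a b)))
    rwa [map_natCast] at this
  · have h1 : (om0 (xi a b) - 1) ^ 2 =
        - (algebraMap (SS a b) (QQ (xi a b)) (xi a b)) * om0 (xi a b) := by
      ext
      · simp [om0, pow_two, QuadraticAlgebra.re_one, QuadraticAlgebra.im_one]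
        try ring
      · simp [om0, pow_two, QuadraticAlgebra.re_one, QuadraticAlgebra.im_one]; ring
    have h2 : IsNilpotent ((om0 (xi a b) - 1) ^ 2) := by
      rw [h1]
      refine (Commute.all _ _).isNilpotent_mul_right ?_
      exact ((xi_nil h).map (algebraMap (SS a b) (QQ (xi a b)))).neg
    obtain ⟨k, hk⟩ := h2
    exact ⟨2 * k, by rw [pow_mul]; exact hk⟩

omit h in
theorem mem_of_X_mul (e : ℕ) (he : a.coeff 0 + b.coeff 0 = (p : ℤ) ^ e) (hp : p ≠ 0) (g : ℤ[X])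
    (hg : X * g ∈ Ideal.span {a + b, X * b}) : g ∈ Ideal.span {a, b} := by
  obtain ⟨x, y, hxy⟩ := Ideal.mem_span_pair.1 hg
  have h1 : x.coeff 0 = 0 := by
    have := congrArg (fun r => coeff r 0) hxy
    simp only [coeff_add, mul_coeff_zero, coeff_X_zero, zero_mul, mul_zero, add_zero] at this
    rw [he] at this
    exact (mul_eq_zero.1 this).resolve_right (pow_ne_zero _ (by exact_mod_cast hp))
  obtain ⟨x', rfl⟩ := X_dvd_iff.2 h1
  have h2 : g = x' * a + (x' + y) * b := by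
    have : (X : ℤ[X]) * g = X * (x' * a + (x' + y) * b) := by
      linear_combination -hxy
    exact mul_left_cancel₀ X_ne_zero this
  rw [h2]
  exact Ideal.mem_span_pair.2 ⟨_, _, rfl⟩

end Spec

section Grp

/-- The cyclic group. -/
abbrev Cq (q : ℕ) := Multiplicative (ZMod q)

/-- Its generator. -/
def tq (q : ℕ) : Cq q := Multiplicative.ofAdd 1

theorem tq_pow (q i : ℕ) : tq q ^ i = Multiplicative.ofAdd (i : ZMod q) := by
  rw [tq, ← ofAdd_nsmul, nsmul_eq_mul, mul_one]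

theorem tq_gen (q : ℕ) [NeZero q] (s : Cq q) : ∃ i : ℕ, tq q ^ i = s := by
  refine ⟨(Multiplicative.toAdd s).val, ?_⟩
  rw [tq_pow, ZMod.natCast_zmod_val]
  rfl

theorem tq_q (q : ℕ) : tq q ^ q = 1 := by
  rw [tq_pow, ZMod.natCast_self]
  rfl

instance (q : ℕ) [NeZero q] : Fintype (Cq q) := inferInstanceAs (Fintype (ZMod q))

theorem tq_sum (q : ℕ) [NeZero q] : (∑ i ∈ Finset.range q, MonoidAlgebra.of ℤ _ (tq q) ^ i) =
    ∑ s : Cq q, MonoidAlgebra.of ℤ _ s := by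
  refine Finset.sum_nbij' (fun i => tq q ^ i) (fun s => (Multiplicative.toAdd s).val) ?_ ?_ ?_ ?_ ?_
  · intro i _
    exact Finset.mem_univ _
  · intro s _
    exact Finset.mem_range.2 (ZMod.val_lt _)
  · intro i hi
    rw [tq_pow]
    exact ZMod.val_natCast_of_lt (Finset.mem_range.1 hi)
  · intro s _
    rw [tq_pow, ZMod.natCast_zmod_val]
    rfl
  · intro i _
    rw [map_pow]

/-- A ring hom from the group ring. -/
theorem exists_hom (q : ℕ) [NeZero q] {Q : Type} [CommRing Q] (z : Q) (hz : z ^ q = 1) :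
    ∃ Φ : MonoidAlgebra ℤ (Cq q) →+* Q, Φ (MonoidAlgebra.of ℤ _ (tq q)) = z := by
  refine ⟨(MonoidAlgebra.lift ℤ Q (Cq q) (AddChar.zmodChar q hz).toMonoidHom).toRingHom, ?_⟩
  have h1 : (MonoidAlgebra.lift ℤ Q (Cq q) (AddChar.zmodChar q hz).toMonoidHom)
    (MonoidAlgebra.of ℤ _ (tq q)) = (AddChar.zmodChar q hz).toMonoidHom (tq q) :=
    MonoidAlgebra.lift_of _ _
  refine h1.trans ?_
  have h2 := AddChar.zmodChar_apply' hz 1
  rw [Nat.cast_one, pow_one] at h2
  exact h2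

variable (p q K : ℕ) (a b : ℤ[X])

/-- The ideal. -/
noncomputable def Iq : Ideal (MonoidAlgebra ℤ (Cq q)) :=
  Ideal.span {ff (tq q) a b, (p : MonoidAlgebra ℤ (Cq q)) ^ K}

/-- The quotient map. -/
noncomputable abbrev mkq : MonoidAlgebra ℤ (Cq q) →+* (MonoidAlgebra ℤ (Cq q)) ⧸ Iq p q K a b :=
  Ideal.Quotient.mk (Iq p q K a b)

/-- The group. -/
abbrev Gq := Sd (chi (mkq p q K a b))

theorem io_pow {C N : Type} [CommGroup C] [CommRing N] {χ : C →* N} (n : N) (k : ℕ) :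
    (Sd.io n : Sd χ) ^ k = Sd.io ((k : N) * n) := by
  induction k with
  | zero => simp [Sd.io]; rfl
  | succ k ih => rw [pow_succ, ih, Sd.io_mul]; push_cast; ring_nf

theorem mkq_p : mkq p q K a b ((p : MonoidAlgebra ℤ (Cq q)) ^ K) = 0 :=
  Ideal.Quotient.eq_zero_iff_mem.2 (Ideal.subset_span (by simp))

theorem mkq_f : mkq p q K a b (ff (tq q) a b) = 0 :=
  Ideal.Quotient.eq_zero_iff_mem.2 (Ideal.subset_span (by simp))

theorem p_kill (x : (MonoidAlgebra ℤ (Cq q)) ⧸ Iq p q K a b) :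
    ((p ^ K : ℕ) : (MonoidAlgebra ℤ (Cq q)) ⧸ Iq p q K a b) * x = 0 := by
  have := mkq_p p q K a b
  rw [map_pow, map_natCast] at this
  rw [Nat.cast_pow, this, zero_mul]

theorem Gq_finite [NeZero q] (hp : p ≠ 0) : Finite (Gq p q K a b) := by
  have h1 : Module.Finite ℤ ((MonoidAlgebra ℤ (Cq q)) ⧸ Iq p q K a b) := by
    have : Module.Finite ℤ (MonoidAlgebra ℤ (Cq q)) := inferInstance
    exact Module.Finite.of_surjective
      ((mkq p q K a b : MonoidAlgebra ℤ (Cq q) →+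
        (MonoidAlgebra ℤ (Cq q)) ⧸ Iq p q K a b).toIntLinearMap)
      (fun y => (Ideal.Quotient.mk_surjective y))
  have h2 : Finite ((MonoidAlgebra ℤ (Cq q)) ⧸ Iq p q K a b) := by
    apply Module.finite_of_fg_torsion
    intro x
    refine ⟨⟨(p : ℤ) ^ K, ?_⟩, ?_⟩
    · exact mem_nonZeroDivisors_of_ne_zero (pow_ne_zero _ (by exact_mod_cast hp))
    · change ((p : ℤ) ^ K) • x = 0
      rw [zsmul_eq_mul]
      have := p_kill p q K a b x
      push_cast at this ⊢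
      exact this
  have : Function.Injective (fun x : Gq p q K a b => (x.n, x.s)) := by
    intro x y h
    ext
    · exact congrArg Prod.fst h
    · exact congrArg Prod.snd h
  exact Finite.of_injective _ this

theorem Gq_p (m : ℕ) (hq : q = p ^ m) : IsPGroup p (Gq p q K a b) := by
  intro g
  refine ⟨m + K, ?_⟩
  rw [pow_add, pow_mul, ← hq]
  have h1 : Sd.pr (g ^ q) = 1 := by
    rw [map_pow]
    have h2 : ∀ s : Cq q, s ^ q = 1 := by
      intro s
      apply Multiplicative.toAdd.injective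
      rw [toAdd_pow, nsmul_eq_mul, ZMod.natCast_self, zero_mul]
      rfl
    exact h2 _
  rw [Sd.pr_eq_one _ h1, io_pow, p_kill]
  rfl

theorem Gq_comm (hcomm : ∀ x y : Gq p q K a b, x * y = y * x) :
    mkq p q K a b (MonoidAlgebra.of ℤ _ (tq q)) = 1 := by
  have h1 := hcomm (Sd.co (tq q)) (Sd.io 1)
  rw [Sd.co_mul_io, Sd.io_mul_co, mul_one] at h1
  exact congrArg Sd.n h1

theorem exists_s [NeZero q] (hp : p.Prime) (hab : Ab p a b) (s1 : ℕ) :
    ∃ e s : ℕ, s1 ≤ s ∧ a.coeff 0 + b.coeff 0 = (p : ℤ) ^ e ∧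
      ∃ y z, (p : MonoidAlgebra ℤ (Cq q)) ^ s = ff (tq q) a b * y +
        (p : MonoidAlgebra ℤ (Cq q)) ^ (e + s) * z := by
  obtain ⟨e, he⟩ := hab.const
  obtain ⟨n, y, hn, hny⟩ := ff_int (tq q) a b hab.na hab.nb (by
    rw [he]
    have : (0 : ℤ) < p := by exact_mod_cast hp.pos
    positivity)
  obtain ⟨s, ρ, hρ, hnρ⟩ := Nat.exists_eq_pow_mul_and_not_dvd (n := n.natAbs)
    (Int.natAbs_ne_zero.2 hn) p hp.one_lt.ne'
  have hcop : IsCoprime (ρ : ℤ) ((p : ℤ) ^ e) := by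
    have := hp.coprime_pow_of_not_dvd (m := e) hρ
    exact_mod_cast Nat.isCoprime_iff_coprime.2 this
  obtain ⟨x, z, hxz⟩ := hcop
  have hn2 : ∃ ε : ℤ, (p : ℤ) ^ s * ρ = ε * n := by
    rcases Int.natAbs_eq n with h | h
    · refine ⟨1, ?_⟩
      rw [one_mul, h, hnρ]; push_cast; ring
    · refine ⟨-1, ?_⟩
      rw [h, hnρ]; push_cast; ring
  obtain ⟨ε, hε⟩ := hn2
  refine ⟨e, s + s1, by omega, he, (p : MonoidAlgebra ℤ (Cq q)) ^ s1 * (ε * x : ℤ) * y, (z : ℤ), ?_⟩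
  have h1 : (p : ℤ) ^ (s + s1) = (p : ℤ) ^ s1 * (ε * x) * n + (p : ℤ) ^ (e + (s + s1)) * z := by
    rw [pow_add, pow_add (p : ℤ) e, pow_add (p : ℤ) s]
    linear_combination (-(p : ℤ) ^ s * (p : ℤ) ^ s1) * hxz + ((p : ℤ) ^ s1 * x) * hε
  have h2 := congrArg (Int.cast : ℤ → MonoidAlgebra ℤ (Cq q)) h1
  push_cast at h2
  rw [hny] at h2
  push_cast
  linear_combination h2

theorem main_pair (hp : p.Prime) (hab : Ab p a b) (m1 : ℕ) :
    ∃ m K : ℕ, m1 ≤ m ∧ 2 ≤ K ∧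
      Nonempty ((ℤ[X] ⧸ Ideal.span {a, b}) ≃+ KK (Gq p (p ^ m) K a b)) ∧
      ((∀ x y : Gq p (p ^ m) K a b, x * y = y * x) → (1 : ℤ[X]) ∈ Ideal.span {a, b}) := by
  obtain ⟨m0, hm0⟩ := om_pow hab
  set m := max m0 m1 with hm
  have hNZ : NeZero (p ^ m) := ⟨pow_ne_zero _ hp.ne_zero⟩
  set q := p ^ m with hq
  obtain ⟨Np, hNp⟩ := p_nil hab
  obtain ⟨e, s, hs2, he, hs⟩ := exists_s p q a b hp hab (Np + 2)
  refine ⟨m, e + s, le_max_right _ _, by omega, ?_⟩
  rw [← hq]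
  obtain ⟨Φ, hΦ⟩ := exists_hom q (om0 (xi a b)) (hm0 m (le_max_left _ _))
  have hsurj : Function.Surjective (mkq p q (e + s) a b) := Ideal.Quotient.mk_surjective
  have hKK := KK_eq (mkq p q (e + s) a b) hsurj (tq q) q (tq_q q) (tq_gen q) (by
    intro g hg
    have h1 := Ideal.mem_span_pair.1 (Ideal.Quotient.eq_zero_iff_mem.1 hg)
    obtain ⟨y, z, hyz⟩ := h1
    obtain ⟨g', y', z', hg'⟩ := cond_ii (tq q) q (tq_gen q) (tq_sum q) a b p e s he hp.ne_zero hs g
      ⟨y, z, by rw [← hyz]; ring⟩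
    refine ⟨g', ?_⟩
    conv_lhs => rw [hg']
    rw [map_add, map_add, map_mul (mkq p q (e + s) a b) (ff _ _ _),
      map_mul (mkq p q (e + s) a b) (_ ^ _), mkq_f, mkq_p, zero_mul, zero_mul, add_zero,
      add_zero])
  have hL : (((p : ℤ) ^ (e + s) : ℤ) : SS a b) = 0 := by
    push_cast
    rw [show e + s = Np + (e + s - Np) by omega, pow_add, hNp, zero_mul]
  have h1 := (aeval_hom (Ideal.Quotient.mk (Ideal.span {a + b, X * b})) (a + b)).trans
    (Ideal.Quotient.eq_zero_iff_mem.2 (mem1 a b))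
  have h2 := (aeval_hom (Ideal.Quotient.mk (Ideal.span {a + b, X * b})) (X * b)).trans
    (Ideal.Quotient.eq_zero_iff_mem.2 (mem2 a b))
  have hker : ∀ x, mkq p q (e + s) a b x = 0 → ∃ y z, x = ff (tq q) a b * y +
      (((p : ℤ) ^ (e + s) : ℤ) : MonoidAlgebra ℤ (Cq q)) * z := by
    intro x hx
    obtain ⟨y, z, hyz⟩ := Ideal.mem_span_pair.1 (Ideal.Quotient.eq_zero_iff_mem.1 hx)
    refine ⟨y, z, ?_⟩
    rw [← hyz]
    push_cast
    ring
  have hc := bc_coc (xi a b) Φ (tq q) hΦ (tq_gen q) (mkq p q (e + s) a b) hsurj a b _ hL h1 h2 hker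
  have hker2 : ∀ h : ℤ[X], C1 (mkq p q (e + s) a b) (uu_coc (Gq p q (e + s) a b)) (tq q) h = 0 ↔
      h ∈ Ideal.span {a, b} := by
    intro h
    constructor
    · intro hh
      have h3 := C1_ind (mkq p q (e + s) a b) hc (tq q) h
      rw [hh, map_zero] at h3
      have h4 := C1_bc (xi a b) Φ (tq q) hΦ (tq_gen q) (mkq p q (e + s) a b) hsurj a b _
        hL h1 h2 hker h
      rw [← h3, aeval_hom, ← map_mul] at h4
      exact mem_of_X_mul e he hp.ne_zero h (Ideal.Quotient.eq_zero_iff_mem.1 h4.symm)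
    · intro hh
      exact C1_kill (mkq p q (e + s) a b) (uu_coc (Gq p q (e + s) a b)) (tq q) a b
        (mkq_f p q (e + s) a b) h hh
  constructor
  · let f : ℤ[X] →+ ℤ[X] ⧸ Ideal.span {a, b} :=
      (Ideal.Quotient.mk (Ideal.span {a, b}) : ℤ[X] →+ _)
    let g : ℤ[X] →+ KK (Gq p q (e + s) a b) :=
      (C1 (mkq p q (e + s) a b) (uu_coc (Gq p q (e + s) a b)) (tq q)).codRestrict _
        (fun x => by rw [hKK]; exact ⟨x, rfl⟩)
    refine iso_of_ker f g Ideal.Quotient.mk_surjective ?_ ?_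
    · rintro ⟨y, hy⟩
      have hy' := hy
      rw [hKK] at hy'
      obtain ⟨x, hx⟩ := hy'
      exact ⟨x, Subtype.ext hx⟩
    · intro h
      have h3 : f h = 0 ↔ h ∈ Ideal.span {a, b} := Ideal.Quotient.eq_zero_iff_mem
      rw [h3, ← hker2 h, Subtype.ext_iff]
      rfl
  · intro hcomm
    have h3 := Gq_comm p q (e + s) a b hcomm
    rw [← hker2, C1_apply, CC_apply, map_mul, h3, one_mul, map_one, map_one, Sd.om_self]

end Grp

end Pool.Agent.Helper427.Schur
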