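import Pool.Agent.Helper427.Schur.Grp

set_option autoImplicit false

namespace Pool.Agent.Helper427.Schur

open Finsupp

section Coc

variable {G M : Type} [Group G] [AddCommGroup M]

/-- 2-cocycles with values in a trivial module. -/
def IsCoc (c : G → G → M) : Prop :=
  ∀ g h k, c g h + c (g * h) k = c g (h * k) + c h k

variable {c : G → G → M} (hc : IsCoc c)

include hc

theorem IsCoc.one_left (g : G) : c 1 g = c 1 1 := by
  have := hc 1 1 g
  simp only [one_mul] at this
  have h2 : c 1 1 + c 1 g = c 1 g + c 1 g := this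
  exact (add_right_cancel h2).symm

theorem IsCoc.one_right (g : G) : c g 1 = c 1 1 := by
  have := hc g 1 1
  simp only [mul_one] at this
  exact add_left_cancel this

theorem IsCoc.omega_add (a b h : G) (h1 : a * h = h * a) (h2 : b * h = h * b) :
    c (a * b) h - c h (a * b) = (c a h - c h a) + (c b h - c h b) := by
  have e1 := hc a b h
  have e2 := hc a h b
  have e3 := hc h a b
  rw [h2] at e1
  rw [h1] at e2
  have e1' : c (a * b) h = c a (h * b) + c b h - c a b := by rw [← e1]; abel
  have e3' : c h (a * b) = c h a + c (h * a) b - c a b := by rw [e3]; abel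
  have e2' : c a (h * b) = c a h + c (h * a) b - c h b := by rw [e2]; abel
  rw [e1', e3', e2']
  abel

theorem IsCoc.omega_conj (t g h : G) (h1 : g * h = h * g) :
    c (t * g * t⁻¹) (t * h * t⁻¹) - c (t * h * t⁻¹) (t * g * t⁻¹) = c g h - c h g := by
  have key : ∀ g h : G, c (t * g * t⁻¹) (t * h * t⁻¹) =
      c g h + (c t (g * h) - c (t * (g * h) * t⁻¹) t) - (c t g - c (t * g * t⁻¹) t) -
        (c t h - c (t * h * t⁻¹) t) := by
    intro g h
    have e1 := hc t g h
    have e2 := hc (t * g * t⁻¹) t h
    have e3 := hc (t * g * t⁻¹) (t * h * t⁻¹) t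
    rw [show t * g * t⁻¹ * t = t * g by group] at e2
    rw [show t * h * t⁻¹ * t = t * h by group,
      show t * g * t⁻¹ * (t * h * t⁻¹) = t * (g * h) * t⁻¹ by group] at e3
    have e3' : c (t * g * t⁻¹) (t * h * t⁻¹) =
      c (t * g * t⁻¹) (t * h) + c (t * h * t⁻¹) t - c (t * (g * h) * t⁻¹) t := by
      rw [← e3]; abel
    have e2' : c (t * g * t⁻¹) (t * h) = c (t * g * t⁻¹) t + c (t * g) h - c t h := by
      rw [e2]; abel
    have e1' : c (t * g) h = c t (g * h) + c g h - c t g := by
      rw [← e1]; abel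
    rw [e3', e2', e1']
    abel
  rw [key g h, key h g, h1]
  abel

end Coc

/-- The central extension attached to a cocycle. -/
@[ext] structure Ex {G M : Type} [Group G] [AddCommGroup M] (c : G → G → M) (hc : IsCoc c) where
  m : M
  g : G

namespace Ex

variable {G M : Type} [Group G] [AddCommGroup M] {c : G → G → M} {hc : IsCoc c}

instance : Mul (Ex c hc) := ⟨fun x y => ⟨x.m + y.m + c x.g y.g, x.g * y.g⟩⟩
instance : One (Ex c hc) := ⟨⟨- c 1 1, 1⟩⟩
instance : Inv (Ex c hc) := ⟨fun x => ⟨- x.m - c x.g⁻¹ x.g - c 1 1, x.g⁻¹⟩⟩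

theorem mul_m (x y : Ex c hc) : (x * y).m = x.m + y.m + c x.g y.g := rfl
theorem mul_g (x y : Ex c hc) : (x * y).g = x.g * y.g := rfl
theorem one_m : (1 : Ex c hc).m = - c 1 1 := rfl
theorem one_g : (1 : Ex c hc).g = 1 := rfl
theorem inv_m (x : Ex c hc) : (x⁻¹).m = - x.m - c x.g⁻¹ x.g - c 1 1 := rfl
theorem inv_g (x : Ex c hc) : (x⁻¹).g = x.g⁻¹ := rfl

instance : Group (Ex c hc) :=
  Group.ofLeftAxioms
    (by
      intro x y z
      ext
      · simp only [mul_m, mul_g]
        have := hc x.g y.g z.g
        calc x.m + y.m + c x.g y.g + z.m + c (x.g * y.g) z.g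
            = x.m + y.m + z.m + (c x.g y.g + c (x.g * y.g) z.g) := by abel
          _ = x.m + (y.m + z.m + c y.g z.g) + c x.g (y.g * z.g) := by rw [this]; abel
      · simp only [mul_g, mul_assoc])
    (by
      intro x
      ext
      · simp only [mul_m, one_m, one_g, hc.one_left]
        abel
      · simp only [mul_g, one_g, one_mul])
    (by
      intro x
      ext
      · simp only [mul_m, inv_m, inv_g, one_m]
        abel
      · simp only [mul_g, inv_g, one_g, inv_mul_cancel])

/-- Projection to `G`. -/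
def pi : Ex c hc →* G where
  toFun := Ex.g
  map_one' := rfl
  map_mul' _ _ := rfl

theorem pi_surj : Function.Surjective (pi : Ex c hc →* G) := fun g => ⟨⟨0, g⟩, rfl⟩

theorem central (x : Ex c hc) (hx : pi x = 1) (y : Ex c hc) : x * y = y * x := by
  have hx' : x.g = 1 := hx
  ext
  · simp only [mul_m, hx', hc.one_left, hc.one_right]
    abel
  · simp only [mul_g, hx', one_mul, mul_one]

/-- The inclusion of the kernel. -/
def inc (m : M) : Ex c hc := ⟨m - c 1 1, 1⟩

theorem inc_add (m m' : M) : (inc (m + m') : Ex c hc) = inc m * inc m' := by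
  ext
  · simp only [inc, mul_m]; abel
  · simp only [inc, mul_g, one_mul]

theorem inc_mul (m : M) (g : G) : (inc m : Ex c hc) * ⟨0, g⟩ = ⟨m, g⟩ := by
  ext
  · simp only [inc, mul_m, hc.one_left]; abel
  · simp only [inc, mul_g, one_mul]

theorem zero_mul_zero (g h : G) : ((⟨0, g⟩ : Ex c hc) * ⟨0, h⟩) = inc (c g h) * ⟨0, g * h⟩ := by
  rw [inc_mul]
  ext
  · simp only [mul_m]; abel
  · simp only [mul_g]

end Ex

section Univ

variable (G : Type) [Group G]

/-- The universal cocycle. -/
noncomputable def uu (g h : G) : Mu G := QuotientAddGroup.mk' (bd G) (single (g, h) 1)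

theorem uu_coc : IsCoc (uu G) := by
  intro g h k
  unfold uu
  rw [← map_add, ← map_add]
  have : single (h, k) 1 - single (g * h, k) 1 +
    single (g, h * k) 1 - single (g, h) (1 : ℤ) ∈ bd G :=
    AddSubgroup.subset_closure ⟨g, h, k, rfl⟩
  have h2 : QuotientAddGroup.mk' (bd G) (single (h, k) 1 - single (g * h, k) 1 +
    single (g, h * k) 1 - single (g, h) (1 : ℤ)) = 0 :=
    (QuotientAddGroup.eq_zero_iff _).2 this
  have h3 : (single (g, h * k) 1 + single (h, k) 1 : G × G →₀ ℤ) =
    (single (g, h) 1 + single (g * h, k) 1) + (single (h, k) 1 - single (g * h, k) 1 +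
    single (g, h * k) 1 - single (g, h) (1 : ℤ)) := by abel
  rw [h3, map_add (QuotientAddGroup.mk' (bd G)) (single (g, h) 1 + single (g * h, k) 1) _, h2,
    add_zero]

variable {G}

/-- The hom induced by a cocycle. -/
noncomputable def ind {M : Type} [AddCommGroup M] (c : G → G → M) (hc : IsCoc c) : Mu G →+ M :=
  QuotientAddGroup.lift (bd G) (liftAddHom fun x => (zmultiplesHom M (c x.1 x.2) : ℤ →+ M))
    (by
      rw [bd, AddSubgroup.closure_le]
      rintro _ ⟨g, h, k, rfl⟩
      change liftAddHom _ _ = _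
      simp only [map_add, map_sub, liftAddHom_apply_single, zmultiplesHom_apply, one_smul]
      have := hc g h k
      have h2 : c h k - c (g * h) k + c g (h * k) - c g h =
        (c g (h * k) + c h k) - (c g h + c (g * h) k) := by abel
      rw [h2, this, sub_self])

theorem ind_uu {M : Type} [AddCommGroup M] (c : G → G → M) (hc : IsCoc c) (g h : G) :
    ind c hc (uu G g h) = c g h := by
  change liftAddHom _ _ = _
  simp

/-- The main upper bound. -/
theorem KK_le {T : Type} [CommGroup T] (Z : AddSubgroup (Mu G)) (pr : G →* T) (t : G)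
    (hgen : ∀ s : T, ∃ i : ℤ, pr t ^ i = s) (q : ℕ) (hq : t ^ q = 1)
    (hcomm : ∀ x y : G, pr x = 1 → pr y = 1 → x * y = y * x ∧ uu G x y - uu G y x ∈ Z)
    (hii : ∀ n : G, pr n = 1 → t * n = n * t → ∃ n', pr n' = 1 ∧ n = nrm t n' q) :
    KK G ≤ Z := by
  let c : G → G → Mu G ⧸ Z := fun g h => QuotientAddGroup.mk' Z (uu G g h)
  have hc : IsCoc c := by
    intro g h k
    simp only [c]
    rw [← map_add, ← map_add, uu_coc G g h k]
  have hcore := core (Ex.pi : Ex c hc →* G) Ex.pi_surj Ex.central pr ⟨0, t⟩ hgen q hq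
    (by
      intro x y hx hy
      obtain ⟨h1, h2⟩ := hcomm x.g y.g hx hy
      have h3 : c x.g y.g = c y.g x.g := by
        have : QuotientAddGroup.mk' Z (uu G x.g y.g - uu G y.g x.g) = 0 :=
          (QuotientAddGroup.eq_zero_iff _).2 h2
        rw [map_sub, sub_eq_zero] at this
        exact this
      ext
      · simp only [Ex.mul_m, h3]; abel
      · exact h1) hii
  rintro _ ⟨z, hz, rfl⟩
  -- the comparison
  let A := Additive (Abelianization (Ex c hc))
  let F : Mu G →+ A :=
    { toFun := fun m => Additive.ofMul (Abelianization.of (Ex.inc (QuotientAddGroup.mk' Z m)))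
      map_zero' := by
        rw [map_zero]
        have : (Ex.inc 0 : Ex c hc) = 1 := by
          ext
          · simp [Ex.inc, Ex.one_m]
          · rfl
        rw [this, map_one]; rfl
      map_add' := fun m m' => by
        rw [map_add, Ex.inc_add, map_mul]; rfl }
  let S : (G →₀ ℤ) →+ A :=
    liftAddHom fun g => (zmultiplesHom A (Additive.ofMul (Abelianization.of (⟨0, g⟩ : Ex c hc))))
  have hFS : F.comp (QuotientAddGroup.mk' (bd G)) = S.comp (dd G) := by
    ext x : 2
    obtain ⟨g, h⟩ := x
    simp only [AddMonoidHom.coe_comp, Function.comp_apply, singleAddHom_apply]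
    change Additive.ofMul (Abelianization.of (Ex.inc (c g h))) = _
    have h1 : S (dd G (single (g, h) 1)) = S (single h 1) - S (single (g * h) 1) +
        S (single g 1) := by
      simp [dd]
    have h2 : ∀ g, S (single g 1) =
        Additive.ofMul (Abelianization.of (⟨0, g⟩ : Ex c hc)) := by
      intro g
      simp [S]
    rw [h1, h2, h2, h2]
    have h3 := congrArg (fun x => Additive.ofMul (Abelianization.of x))
      (Ex.zero_mul_zero (c := c) (hc := hc) g h)
    simp only [map_mul, ofMul_mul] at h3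
    have h4 : Additive.ofMul (Abelianization.of (⟨0, h⟩ : Ex c hc)) -
        Additive.ofMul (Abelianization.of (⟨0, g * h⟩ : Ex c hc)) +
        Additive.ofMul (Abelianization.of (⟨0, g⟩ : Ex c hc)) =
        (Additive.ofMul (Abelianization.of (⟨0, g⟩ : Ex c hc)) +
        Additive.ofMul (Abelianization.of (⟨0, h⟩ : Ex c hc))) -
        Additive.ofMul (Abelianization.of (⟨0, g * h⟩ : Ex c hc)) := by abel
    rw [h4, h3, add_sub_cancel_right]
  have h1 : F (QuotientAddGroup.mk' (bd G) z) = 0 := by
    have := DFunLike.congr_fun hFS z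
    simp only [AddMonoidHom.coe_comp, Function.comp_apply] at this
    rw [this, show dd G z = 0 from hz, map_zero]
  have h2 : (Ex.inc (QuotientAddGroup.mk' Z (QuotientAddGroup.mk' (bd G) z)) : Ex c hc) ∈
      commutator (Ex c hc) := by
    have h3 : Abelianization.of (Ex.inc (QuotientAddGroup.mk' Z
      (QuotientAddGroup.mk' (bd G) z)) : Ex c hc) = 1 := h1
    rw [← Abelianization.ker_of]
    exact h3
  have h3 := hcore _ h2 rfl
  have h4 := congrArg Ex.m h3
  simp only [Ex.inc, Ex.one_m] at h4
  have h5 : QuotientAddGroup.mk' Z (QuotientAddGroup.mk' (bd G) z) = 0 := by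
    have h6 : QuotientAddGroup.mk' Z (QuotientAddGroup.mk' (bd G) z) - c 1 1 + c 1 1 =
      - c 1 1 + c 1 1 := by rw [h4]
    rwa [sub_add_cancel, neg_add_cancel] at h6
  exact (QuotientAddGroup.eq_zero_iff _).1 h5

end Univ

end Pool.Agent.Helper427.Schur
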