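import Pool.Agent.Helper427.Schur.Asm

set_option autoImplicit false

namespace Pool.Agent.Helper427.Schur

open Finsupp Polynomial

theorem exists_bij (n : ℕ) (α : ℕ → ℕ) {ι : Type} [Fintype ι] (β : ι → ℕ)
    (h : (Multiset.range n).map α = Finset.univ.val.map β) :
    ∃ e : Fin n ≃ ι, ∀ i : Fin n, α i = β (e i) := by
  classical
  have h0 : (Multiset.range n).map α = (Finset.univ : Finset (Fin n)).val.map (fun i : Fin n => α i) := by
    have h1 : (Finset.univ : Finset (Fin n)).val.map (fun i : Fin n => (i : ℕ)) =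
        Multiset.range n := by
      have h2 := Fin.map_valEmbedding_univ (n := n)
      rw [Nat.Iio_eq_range] at h2
      have h3 := congrArg Finset.val h2
      rw [Finset.map_val, Finset.range_val] at h3
      exact h3
    rw [← h1, Multiset.map_map]
    rfl
  rw [h0] at h
  have hcard : ∀ a : ℕ, Fintype.card {i : Fin n // α i = a} = Fintype.card {j : ι // β j = a} := by
    intro a
    have h1 := congrArg (Multiset.count a) h
    rw [Multiset.count_map, Multiset.count_map] at h1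
    rw [Fintype.card_subtype, Fintype.card_subtype, Finset.card_def, Finset.card_def,
      Finset.filter_val, Finset.filter_val]
    simpa only [eq_comm] using h1
  let e : Fin n ≃ ι := ((Equiv.sigmaFiberEquiv (fun i : Fin n => α i)).symm.trans
    (Equiv.sigmaCongrRight (fun a => Fintype.equivOfCardEq (hcard a)))).trans
    (Equiv.sigmaFiberEquiv β)
  refine ⟨e, fun i => ?_⟩
  have : β (e i) = α i := (Fintype.equivOfCardEq (hcard (α i)) ⟨i, rfl⟩).2
  exact this.symm

theorem exists_type (p : ℕ) (hp : p.Prime) (A : Type) [AddCommGroup A] [Finite A]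
    (hA : ∀ a : A, ∃ n : ℕ, p ^ n • a = 0) :
    ∃ (a b : ℤ[X]), (∃ n α, Gd p a b n α) ∧ Nonempty (A ≃+ ℤ[X] ⧸ Ideal.span {a, b}) := by
  classical
  obtain ⟨ι, hι, N, hN, ⟨E⟩⟩ := AddCommGroup.equiv_directSum_zmod_of_finite' A
  have E2 : A ≃+ (∀ i, ZMod (N i)) := E.trans (DirectSum.addEquivProd _)
  have hpow : ∀ i, ∃ k, N i = p ^ k := by
    intro i
    obtain ⟨k, hk⟩ := hA (E2.symm (Pi.single i 1))
    have h1 := congrArg E2 hk
    rw [map_nsmul, AddEquiv.apply_symm_apply, map_zero] at h1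
    have h2 := congrFun h1 i
    rw [Pi.smul_apply, Pi.single_eq_same, nsmul_eq_mul, mul_one, Pi.zero_apply,
      ZMod.natCast_eq_zero_iff] at h2
    obtain ⟨j, _, hj⟩ := (Nat.dvd_prime_pow hp).1 h2
    exact ⟨j, hj⟩
  choose β hβ using hpow
  have hβ1 : ∀ i, 1 ≤ β i := by
    intro i
    by_contra h
    have h1 : β i = 0 := by omega
    have h2 := hN i
    rw [hβ i, h1, pow_zero] at h2
    omega
  obtain ⟨u, v, n, α, hg, hα⟩ := exists_gd p (Finset.univ.val.map β) (by
    intro x hx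
    obtain ⟨i, _, rfl⟩ := Multiset.mem_map.1 hx
    exact hβ1 i)
  obtain ⟨e, he⟩ := exists_bij n α β hα
  obtain ⟨F⟩ := gd_iso p u v n α hg
  refine ⟨u, v, ⟨n, α, hg⟩, ⟨?_⟩⟩
  refine E2.trans (AddEquiv.trans ?_ F)
  refine ((RingEquiv.piCongrLeft (fun i => ZMod (N i)) e).toAddEquiv.symm).trans ?_
  refine AddEquiv.piCongrRight fun i => (ZMod.ringEquivCongr ?_).toAddEquiv
  rw [hβ, he]

theorem main_thm (p : ℕ) (hp : p.Prime) (A : Type) [AddCommGroup A] [Finite A]
    (hA : ∀ a : A, ∃ n : ℕ, p ^ n • a = 0) :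
    ∃ (G : Type) (_ : Group G), Finite G ∧ IsPGroup p G ∧ (∃ x y : G, x * y ≠ y * x) ∧
      Nonempty (A ≃+ (groupHomology.H2 (Rep.trivial ℤ G ℤ))) := by
  by_cases hA0 : Subsingleton A
  · -- the trivial case
    have hab := ab_zero p hp.one_lt.le
    obtain ⟨m1, hm1⟩ := unip (Q := ZMod (p ^ 2)) p
      ⟨2, by rw [← Nat.cast_pow, ZMod.natCast_self]⟩ (1 + p)
      ⟨2, by rw [add_sub_cancel_left, ← Nat.cast_pow, ZMod.natCast_self]⟩
    obtain ⟨m, K, hm, hK, ⟨F⟩, -⟩ := main_pair p _ _ hp hab m1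
    have hNZ : NeZero (p ^ m) := ⟨pow_ne_zero _ hp.ne_zero⟩
    refine ⟨Gq p (p ^ m) K (C ((p : ℤ) - 1)) 1, inferInstance, Gq_finite _ _ _ _ _ hp.ne_zero,
      Gq_p _ _ _ _ _ m rfl, ?_, ?_⟩
    · by_contra hne
      push Not at hne
      have h1 := Gq_comm _ _ _ _ _ hne
      obtain ⟨Φ, hΦ⟩ := exists_hom (p ^ m) (1 + p : ZMod (p ^ 2)) (hm1 m hm)
      have h2 : ∀ x ∈ Iq p (p ^ m) K (C ((p : ℤ) - 1)) 1, Φ x = 0 := by
        intro x hx
        obtain ⟨y, z, rfl⟩ := Ideal.mem_span_pair.1 hx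
        have h3 : Φ (ff (tq (p ^ m)) (C ((p : ℤ) - 1)) 1) = 0 := by
          rw [ff, aeval_C, map_one, mul_one, map_add, map_sub Φ 2, hΦ, map_ofNat]
          simp
          ring
        have h4 : Φ ((p : MonoidAlgebra ℤ (Cq (p ^ m))) ^ K) = 0 := by
          rw [map_pow, map_natCast, show K = 2 + (K - 2) by omega, pow_add, ← Nat.cast_pow,
            ZMod.natCast_self, zero_mul]
        rw [map_add, map_mul, map_mul, h3, h4]
        ring
      rw [← map_one (mkq p (p ^ m) K (C ((p : ℤ) - 1)) 1)] at h1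
      have h3 := h2 _ (Ideal.Quotient.eq.1 h1)
      rw [map_sub, map_one, hΦ, add_sub_cancel_left, ZMod.natCast_eq_zero_iff] at h3
      have h4 := Nat.le_of_dvd hp.pos h3
      have h5 := hp.one_lt
      nlinarith
    · obtain ⟨H⟩ := H2_iso (Gq p (p ^ m) K (C ((p : ℤ) - 1)) 1)
      have h1 : Subsingleton (ℤ[X] ⧸ Ideal.span {C ((p : ℤ) - 1), 1}) := by
        rw [Ideal.Quotient.subsingleton_iff, Ideal.eq_top_iff_one]
        exact Ideal.subset_span (by simp)
      have h2 : Subsingleton (groupHomology.H2 (Rep.trivial ℤ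
        (Gq p (p ^ m) K (C ((p : ℤ) - 1)) 1) ℤ)) := (F.trans H).symm.toEquiv.subsingleton
      exact ⟨{ toFun := fun _ => 0
               invFun := fun _ => 0
               left_inv := fun _ => Subsingleton.elim _ _
               right_inv := fun _ => Subsingleton.elim _ _
               map_add' := fun _ _ => Subsingleton.elim _ _ }⟩
  · obtain ⟨a, b, ⟨n, α, hg⟩, ⟨E⟩⟩ := exists_type p hp A hA
    obtain ⟨m, K, hm, hK, ⟨F⟩, hcomm⟩ := main_pair p a b hp hg.ab 0
    have hNZ : NeZero (p ^ m) := ⟨pow_ne_zero _ hp.ne_zero⟩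
    refine ⟨Gq p (p ^ m) K a b, inferInstance, Gq_finite _ _ _ _ _ hp.ne_zero,
      Gq_p _ _ _ _ _ m rfl, ?_, ?_⟩
    · by_contra hne
      push Not at hne
      have h1 := hcomm hne
      apply hA0
      have h2 : Subsingleton (ℤ[X] ⧸ Ideal.span {a, b}) := by
        rw [Ideal.Quotient.subsingleton_iff, Ideal.eq_top_iff_one]
        exact h1
      exact E.toEquiv.subsingleton
    · obtain ⟨H⟩ := H2_iso (Gq p (p ^ m) K a b)
      exact ⟨(E.trans F).trans H⟩

end Pool.Agent.Helper427.Schur
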