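import Pool.Agent.Helper427.Schur.Sd

set_option autoImplicit false

namespace Pool.Agent.Helper427.Schur

open Finsupp Polynomial

section Ring

variable {C : Type} [CommGroup C]

/-- The inversion involution. -/
noncomputable def bar : MonoidAlgebra ℤ C →+* MonoidAlgebra ℤ C :=
  MonoidAlgebra.mapDomainRingHom ℤ (invMonoidHom : C →* C)

theorem bar_of (s : C) : bar (MonoidAlgebra.of ℤ C s) = MonoidAlgebra.of ℤ C s⁻¹ := by
  simp [bar]

theorem of_mul_inv (s : C) :
    MonoidAlgebra.of ℤ C s * MonoidAlgebra.of ℤ C s⁻¹ = 1 := by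
  rw [← map_mul, mul_inv_cancel, map_one]

/-- `w = 2 - t - t⁻¹`. -/
noncomputable def ww (t : C) : MonoidAlgebra ℤ C :=
  2 - MonoidAlgebra.of ℤ C t - MonoidAlgebra.of ℤ C t⁻¹

/-- The element `f = a(w) + (2 - t) b(w)`. -/
noncomputable def ff (t : C) (a b : ℤ[X]) : MonoidAlgebra ℤ C :=
  aeval (ww t) a + (2 - MonoidAlgebra.of ℤ C t) * aeval (ww t) b

theorem ww_eq (t : C) :
    ww t = bar (1 - MonoidAlgebra.of ℤ C t) * (1 - MonoidAlgebra.of ℤ C t) := by
  rw [map_sub, map_one, bar_of, ww]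
  linear_combination - of_mul_inv t

theorem bar_ww (t : C) : bar (ww t) = ww t := by
  rw [ww, map_sub, map_sub, bar_of, bar_of, inv_inv, map_ofNat]
  ring

theorem bar_aeval (t : C) (g : ℤ[X]) : bar (aeval (ww t) g) = aeval (ww t) g := by
  induction g using Polynomial.induction_on' with
  | add p q hp hq => rw [map_add, map_add, hp, hq]
  | monomial n r =>
    rw [aeval_monomial, map_mul, map_pow, bar_ww]
    congr 1
    simp

theorem of_sq (t : C) :
    MonoidAlgebra.of ℤ C t * MonoidAlgebra.of ℤ C t =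
      (2 - ww t) * MonoidAlgebra.of ℤ C t - 1 := by
  rw [ww]
  linear_combination - of_mul_inv t

theorem decomp (t : C) (hgen : ∀ s : C, ∃ i : ℕ, t ^ i = s) (k : MonoidAlgebra ℤ C) :
    ∃ g h : ℤ[X], k = aeval (ww t) g + MonoidAlgebra.of ℤ C t * aeval (ww t) h := by
  induction k using MonoidAlgebra.induction_on with
  | of m =>
    obtain ⟨i, rfl⟩ := hgen m
    induction i with
    | zero => exact ⟨1, 0, by rw [pow_zero, map_one, map_one, map_zero]; ring⟩
    | succ i ih =>
      obtain ⟨g, h, hgh⟩ := ih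
      refine ⟨-h, g + (2 - X) * h, ?_⟩
      rw [pow_succ, map_mul, hgh]
      simp only [map_neg, map_add, map_mul, map_sub, aeval_X, map_ofNat]
      linear_combination (aeval (ww t) h) * of_sq t
  | add x y hx hy =>
    obtain ⟨g, h, rfl⟩ := hx
    obtain ⟨g', h', rfl⟩ := hy
    exact ⟨g + g', h + h', by simp only [map_add]; ring⟩
  | smul r x hx =>
    obtain ⟨g, h, rfl⟩ := hx
    exact ⟨r • g, r • h, by simp only [map_smul, smul_add, mul_smul_comm]⟩

end Ring

section Fun

variable {C N M : Type} [CommGroup C] [CommRing N] [AddCommGroup M]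
  (mk : MonoidAlgebra ℤ C →+* N)

/-- The character of `C` attached to a quotient of the group ring. -/
noncomputable abbrev chi : C →* N := (mk : MonoidAlgebra ℤ C →* N).comp (MonoidAlgebra.of ℤ C)

variable {c : Sd (chi mk) → Sd (chi mk) → M} (hc : IsCoc c)

/-- The functional attached to a cocycle. -/
noncomputable def CC : MonoidAlgebra ℤ C →+ M := (Sd.omr hc 1).comp (mk : MonoidAlgebra ℤ C →+ N)

theorem CC_apply (k : MonoidAlgebra ℤ C) : CC mk hc k = Sd.om c 1 (mk k) := rfl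

theorem om_mk (g k : MonoidAlgebra ℤ C) : Sd.om c (mk g) (mk k) = CC mk hc (bar g * k) := by
  induction g using MonoidAlgebra.induction_on with
  | of s =>
    rw [CC_apply, bar_of, map_mul]
    have h1 := Sd.om_conj hc s 1 (mk (MonoidAlgebra.of ℤ C s⁻¹) * mk k)
    rw [← h1]
    have h2 : (chi mk) s = mk (MonoidAlgebra.of ℤ C s) := rfl
    rw [h2, mul_one, ← mul_assoc, ← map_mul, of_mul_inv, map_one, one_mul]
  | add x y hx hy =>
    rw [map_add, Sd.om_add_left hc, hx, hy, map_add, add_mul, map_add]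
  | smul r x hx =>
    have h1 : Sd.om c (mk (r • x)) (mk k) = Sd.oml hc (mk k) (mk (r • x)) := rfl
    have h2 : Sd.om c (mk x) (mk k) = Sd.oml hc (mk k) (mk x) := rfl
    rw [h1, map_zsmul, map_zsmul, ← h2, hx, map_zsmul, smul_mul_assoc, map_zsmul]

theorem CC_bar_self (x : MonoidAlgebra ℤ C) : CC mk hc (bar x * x) = 0 := by
  rw [← om_mk, Sd.om_self]

theorem CC_aeval (t : C) (g : ℤ[X]) : CC mk hc (aeval (ww t) g) = 0 := by
  induction g using Polynomial.induction_on' with
  | add p q hp hq => rw [map_add, map_add, hp, hq, add_zero]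
  | monomial n r =>
    rw [← mul_one r, ← smul_eq_mul, ← smul_monomial, map_smul, map_zsmul, aeval_monomial,
      map_one, one_mul]
    rw [ww_eq, mul_pow, ← map_pow, CC_bar_self, smul_zero]

/-- The functional on polynomials. -/
noncomputable def C1 (t : C) : ℤ[X] →+ M where
  toFun h := CC mk hc (MonoidAlgebra.of ℤ C t * aeval (ww t) h)
  map_zero' := by rw [map_zero, mul_zero, map_zero]
  map_add' x y := by rw [map_add, mul_add, map_add]

theorem C1_apply (t : C) (h : ℤ[X]) :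
    C1 mk hc t h = CC mk hc (MonoidAlgebra.of ℤ C t * aeval (ww t) h) := rfl

theorem CC_eq (t : C) (g h : ℤ[X]) :
    CC mk hc (aeval (ww t) g + MonoidAlgebra.of ℤ C t * aeval (ww t) h) = C1 mk hc t h := by
  rw [map_add, CC_aeval, zero_add, C1_apply]

theorem CC_kill (t : C) (a b : ℤ[X]) (hf : mk (ff t a b) = 0) (k : MonoidAlgebra ℤ C) :
    CC mk hc (ff t a b * k) = 0 := by
  rw [CC_apply, map_mul, hf, zero_mul]
  exact (Sd.omr hc 1).map_zero

theorem C1_b (t : C) (a b : ℤ[X]) (hf : mk (ff t a b) = 0) (h : ℤ[X]) :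
    C1 mk hc t (b * h) = 0 := by
  have h1 := CC_kill mk hc t a b hf (aeval (ww t) h)
  have h2 : ff t a b * aeval (ww t) h = aeval (ww t) (a * h + 2 * b * h) +
      MonoidAlgebra.of ℤ C t * aeval (ww t) (- (b * h)) := by
    simp only [ff, map_add, map_mul, map_neg, map_ofNat]
    ring
  rw [h2, CC_eq, map_neg, neg_eq_zero] at h1
  exact h1

theorem C1_a (t : C) (a b : ℤ[X]) (hf : mk (ff t a b) = 0) (h : ℤ[X]) :
    C1 mk hc t (a * h) = 0 := by
  have h1 := CC_kill mk hc t a b hf (MonoidAlgebra.of ℤ C t * aeval (ww t) h)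
  have h2 : ff t a b * (MonoidAlgebra.of ℤ C t * aeval (ww t) h) =
      aeval (ww t) (b * h) +
      MonoidAlgebra.of ℤ C t * aeval (ww t) (a * h + b * (X * h)) := by
    simp only [ff, map_add, map_mul, aeval_X]
    linear_combination (- aeval (ww t) b * aeval (ww t) h) * of_sq t
  rw [h2, CC_eq, map_add, C1_b mk hc t a b hf, add_zero] at h1
  exact h1

theorem C1_kill (t : C) (a b : ℤ[X]) (hf : mk (ff t a b) = 0) (h : ℤ[X])
    (hh : h ∈ Ideal.span {a, b}) : C1 mk hc t h = 0 := by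
  obtain ⟨x, y, rfl⟩ := Ideal.mem_span_pair.1 hh
  rw [map_add, mul_comm x, mul_comm y, C1_a mk hc t a b hf, C1_b mk hc t a b hf, add_zero]

theorem om_mem (t : C) (hgen : ∀ s : C, ∃ i : ℕ, t ^ i = s) (hsurj : Function.Surjective mk)
    (x y : N) : Sd.om c x y ∈ (C1 mk hc t).range := by
  obtain ⟨g, rfl⟩ := hsurj x
  obtain ⟨k, rfl⟩ := hsurj y
  rw [om_mk mk hc]
  obtain ⟨u, v, huv⟩ := decomp t hgen (bar g * k)
  rw [huv, CC_eq]
  exact ⟨v, rfl⟩

end Fun

section KKeq

variable {C N : Type} [CommGroup C] [CommRing N] (mk : MonoidAlgebra ℤ C →+* N)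

theorem om_uu_mem (x y : N) : Sd.om (uu (Sd (chi mk))) x y ∈ KK (Sd (chi mk)) := by
  refine ⟨single (Sd.io x, Sd.io y) 1 - single (Sd.io y, Sd.io x) 1, ?_, ?_⟩
  · change dd _ _ = 0
    simp only [dd, map_sub, liftAddHom_apply_single, AddMonoidHom.add_apply,
      AddMonoidHom.sub_apply, singleAddHom_apply]
    rw [Sd.io_comm x y]
    abel
  · rw [map_sub]
    rfl

/-- The upper bound: `KK` is the range of the functional of the universal cocycle. -/
theorem KK_eq (hsurj : Function.Surjective mk) (t : C) (q : ℕ) (hq : t ^ q = 1)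
    (hgen : ∀ s : C, ∃ i : ℕ, t ^ i = s)
    (hii : ∀ g, mk ((MonoidAlgebra.of ℤ C t - 1) * g) = 0 →
      ∃ g', mk g = mk ((∑ i ∈ Finset.range q, MonoidAlgebra.of ℤ C t ^ i) * g')) :
    KK (Sd (chi mk)) = (C1 mk (uu_coc (Sd (chi mk))) t).range := by
  apply le_antisymm
  · refine KK_le _ Sd.pr (Sd.co t) ?_ q ?_ ?_ ?_
    · intro s
      obtain ⟨i, rfl⟩ := hgen s
      exact ⟨i, by rw [zpow_natCast]; rfl⟩
    · rw [Sd.co_pow, hq]; rfl
    · intro x y hx hy
      rw [Sd.pr_eq_one x hx, Sd.pr_eq_one y hy]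
      exact ⟨Sd.io_comm _ _, om_mem mk _ t hgen hsurj _ _⟩
    · intro n hn hcomm
      rw [Sd.pr_eq_one n hn] at hcomm ⊢
      obtain ⟨g, hg⟩ := hsurj n.n
      rw [Sd.co_mul_io, Sd.io_mul_co] at hcomm
      have h1 : (chi mk) t * n.n = n.n := congrArg Sd.n hcomm
      have h2 : mk ((MonoidAlgebra.of ℤ C t - 1) * g) = 0 := by
        rw [map_mul, map_sub, map_one, hg, sub_mul, one_mul, sub_eq_zero]
        exact h1
      obtain ⟨g', hg'⟩ := hii g h2
      refine ⟨Sd.io (mk g'), rfl, ?_⟩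
      rw [Sd.nrm_eq, ← hg, hg', map_mul, map_sum]
      congr 2
      refine Finset.sum_congr rfl fun i _ => ?_
      rw [map_pow]
      rfl
  · rintro _ ⟨h, rfl⟩
    rw [C1_apply, CC_apply]
    exact om_uu_mem mk _ _

theorem C1_ind {M : Type} [AddCommGroup M] {c : Sd (chi mk) → Sd (chi mk) → M} (hc : IsCoc c)
    (t : C) (h : ℤ[X]) :
    ind c hc (C1 mk (uu_coc (Sd (chi mk))) t h) = C1 mk hc t h := by
  rw [C1_apply, CC_apply, C1_apply, CC_apply, Sd.om, map_sub, ind_uu, ind_uu]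
  rfl

end KKeq

end Pool.Agent.Helper427.Schur
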