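import Pool.Agent.Helper427.Schur.Hom

set_option autoImplicit false

namespace Pool.Agent.Helper427.Schur

/-- The norm product `n * (t n t⁻¹) * ... ` with `k` factors. -/
def nrm {E : Type} [Group E] (t n : E) : ℕ → E
  | 0 => 1
  | k + 1 => nrm t n k * (t ^ k * n * (t ^ k)⁻¹)

theorem map_nrm {E G : Type} [Group E] [Group G] (f : E →* G) (t n : E) (k : ℕ) :
    f (nrm t n k) = nrm (f t) (f n) k := by
  induction k with
  | zero => simp [nrm]
  | succ k ih => simp [nrm, ih]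

/-- The group theoretic core. -/
theorem core {E G T : Type} [Group E] [Group G] [CommGroup T] (π : E →* G)
    (hsurj : Function.Surjective π)
    (hc : ∀ x, π x = 1 → ∀ y, x * y = y * x) (pr : G →* T) (t : E)
    (hgen : ∀ s : T, ∃ i : ℤ, pr (π t) ^ i = s) (q : ℕ) (hq : π t ^ q = 1)
    (hcomm : ∀ x y, pr (π x) = 1 → pr (π y) = 1 → x * y = y * x)
    (hii : ∀ n : G, pr n = 1 → π t * n = n * π t → ∃ n', pr n' = 1 ∧ n = nrm (π t) n' q) :
    ∀ x ∈ commutator E, π x = 1 → x = 1 := by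
  let K : Subgroup E := (pr.comp π).ker
  have hK : ∀ x, x ∈ K ↔ pr (π x) = 1 := fun x => Iff.rfl
  have hKn : ∀ x ∈ K, ∀ g, g * x * g⁻¹ ∈ K := fun x hx g => by
    have : K.Normal := inferInstance
    exact this.conj_mem x hx g
  have hcm : ∀ x ∈ K, ∀ y ∈ K, x * y = y * x := fun x hx y hy => hcomm x y hx hy
  let S : Subgroup E :=
    { carrier := {x | ∃ n ∈ K, x = t * n * t⁻¹ * n⁻¹}
      one_mem' := ⟨1, K.one_mem, by simp⟩
      mul_mem' := by
        rintro _ _ ⟨a, ha, rfl⟩ ⟨b, hb, rfl⟩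
        refine ⟨a * b, K.mul_mem ha hb, ?_⟩
        have h1 := hcm a⁻¹ (K.inv_mem ha) (t * b * t⁻¹) (hKn b hb t)
        have h2 := hcm a⁻¹ (K.inv_mem ha) b⁻¹ (K.inv_mem hb)
        calc t * a * t⁻¹ * a⁻¹ * (t * b * t⁻¹ * b⁻¹)
            = t * a * t⁻¹ * (a⁻¹ * (t * b * t⁻¹)) * b⁻¹ := by group
          _ = t * a * t⁻¹ * (t * b * t⁻¹ * a⁻¹) * b⁻¹ := by rw [h1]
          _ = t * a * b * t⁻¹ * (a⁻¹ * b⁻¹) := by group
          _ = t * a * b * t⁻¹ * (b⁻¹ * a⁻¹) := by rw [h2]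
          _ = t * (a * b) * t⁻¹ * (a * b)⁻¹ := by group
      inv_mem' := by
        rintro _ ⟨a, ha, rfl⟩
        refine ⟨a⁻¹, K.inv_mem ha, ?_⟩
        have h1 := hcm a ha (t * a⁻¹ * t⁻¹) (hKn a⁻¹ (K.inv_mem ha) t)
        calc (t * a * t⁻¹ * a⁻¹)⁻¹ = a * (t * a⁻¹ * t⁻¹) := by group
          _ = t * a⁻¹ * t⁻¹ * a := h1
          _ = t * a⁻¹ * t⁻¹ * a⁻¹⁻¹ := by group }
  have hSK : ∀ x ∈ S, x ∈ K := by
    rintro _ ⟨a, ha, rfl⟩
    exact K.mul_mem (hKn a ha t) (K.inv_mem ha)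
  have hdec : ∀ g : E, ∃ i : ℤ, ∃ k ∈ K, g = t ^ i * k := by
    intro g
    obtain ⟨i, hi⟩ := hgen (pr (π g))
    refine ⟨i, (t ^ i)⁻¹ * g, ?_, by group⟩
    rw [hK]
    simp [← hi]
  have hSn : S.Normal := by
    have h1 : ∀ k ∈ K, k ∈ Subgroup.normalizer (S : Set E) := by
      intro k hk
      rw [Subgroup.mem_normalizer_iff]
      intro x
      constructor
      · intro hx
        have := hcm k hk x (hSK x hx)
        rw [this, mul_inv_cancel_right]
        exact hx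
      · intro hx
        have h2 : k * x * k⁻¹ = x := by
          have h3 := hcm k⁻¹ (K.inv_mem hk) _ (hSK _ hx)
          have h4 : k⁻¹ * (k * x * k⁻¹) = x * k⁻¹ := by group
          rw [h4] at h3
          have h5 : k * x * k⁻¹ * k⁻¹ * k = k * x * k⁻¹ := by group
          calc k * x * k⁻¹ = (k * x * k⁻¹ * k⁻¹) * k := h5.symm
            _ = (x * k⁻¹) * k := by rw [← h3]
            _ = x := by group
        rw [h2] at hx
        exact hx
    have h2 : t ∈ Subgroup.normalizer (S : Set E) := by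
      rw [Subgroup.mem_normalizer_iff]
      intro x
      constructor
      · rintro ⟨a, ha, rfl⟩
        exact ⟨t * a * t⁻¹, hKn a ha t, by group⟩
      · rintro ⟨a, ha, hx⟩
        refine ⟨t⁻¹ * a * t, ?_, ?_⟩
        · have := hKn a ha t⁻¹
          rwa [inv_inv] at this
        · have : x = t⁻¹ * (t * x * t⁻¹) * t := by group
          rw [this, hx]
          group
    refine Subgroup.normalizer_eq_top_iff.1 ?_
    rw [eq_top_iff]
    intro g _
    obtain ⟨i, k, hk, rfl⟩ := hdec g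
    exact Subgroup.mul_mem _ (Subgroup.zpow_mem _ h2 i) (h1 k hk)
  have hcS : commutator E ≤ S := by
    rw [commutator_def, Subgroup.commutator_le]
    intro g _ h _
    obtain ⟨i, k, hk, rfl⟩ := hdec g
    obtain ⟨j, l, hl, rfl⟩ := hdec h
    have h1 : ∀ k ∈ K, Commute ((t : E) : E ⧸ S) ((k : E) : E ⧸ S) := by
      intro k hk
      change ((t * k : E) : E ⧸ S) = ((k * t : E) : E ⧸ S)
      rw [QuotientGroup.eq]
      have : (t * k)⁻¹ * (k * t) = k⁻¹ * (t⁻¹ * (k * t * k⁻¹ * t⁻¹) * t⁻¹⁻¹) * k⁻¹⁻¹ := by group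
      rw [this]
      have h3 : k * t * k⁻¹ * t⁻¹ ∈ S := by
        have : t * k * t⁻¹ * k⁻¹ ∈ S := ⟨k, hk, rfl⟩
        have h4 := S.inv_mem this
        have h5 : (t * k * t⁻¹ * k⁻¹)⁻¹ = k * t * k⁻¹ * t⁻¹ := by group
        rwa [h5] at h4
      exact hSn.conj_mem _ (hSn.conj_mem _ h3 _) _
    have h2 : Commute ((k : E) : E ⧸ S) ((l : E) : E ⧸ S) := by
      change ((k * l : E) : E ⧸ S) = ((l * k : E) : E ⧸ S)
      rw [hcm k hk l hl]
    have h3 : Commute ((t ^ i * k : E) : E ⧸ S) ((t ^ j * l : E) : E ⧸ S) := by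
      rw [QuotientGroup.mk_mul, QuotientGroup.mk_mul, QuotientGroup.mk_zpow,
        QuotientGroup.mk_zpow]
      refine Commute.mul_left (Commute.mul_right ?_ ?_) (Commute.mul_right ?_ ?_)
      · exact (Commute.refl _).zpow_zpow i j
      · exact (h1 l hl).zpow_left i
      · exact ((h1 k hk).zpow_left j).symm
      · exact h2
    rw [commutatorElement_def]
    refine (QuotientGroup.eq_one_iff _).1 ?_
    have := h3.eq
    rw [QuotientGroup.mk_mul, QuotientGroup.mk_mul, QuotientGroup.mk_mul,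
      QuotientGroup.mk_inv, QuotientGroup.mk_inv, this]
    group
  intro x hx hpx
  obtain ⟨n, hn, rfl⟩ := hcS hx
  have h1 : π t * π n = π n * π t := by
    have h2 : π t * π n * (π t)⁻¹ * (π n)⁻¹ = 1 := by
      rw [← hpx]; simp
    calc π t * π n = (π t * π n * (π t)⁻¹ * (π n)⁻¹) * (π n * π t) := by group
      _ = π n * π t := by rw [h2, one_mul]
  obtain ⟨n', hn', hnn⟩ := hii (π n) hn h1
  obtain ⟨m, rfl⟩ := hsurj n'
  have hm : m ∈ K := hn'
  have hP : ∀ k, nrm t m k ∈ K := by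
    intro k
    induction k with
    | zero => exact K.one_mem
    | succ k ih => exact K.mul_mem ih (hKn m hm _)
  have htel : ∀ k, t * nrm t m k * t⁻¹ = m⁻¹ * (nrm t m k * (t ^ k * m * (t ^ k)⁻¹)) := by
    intro k
    induction k with
    | zero => simp [nrm]
    | succ k ih =>
      have e1 : t * nrm t m (k + 1) * t⁻¹ =
          (t * nrm t m k * t⁻¹) * (t ^ (k + 1) * m * (t ^ (k + 1))⁻¹) := by
        simp only [nrm, pow_succ']
        group
      rw [e1, ih]
      simp only [nrm, mul_assoc]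
  have hz : ∀ y, t ^ q * y = y * t ^ q := hc (t ^ q) (by rw [map_pow]; exact hq)
  have h3 : t * nrm t m q * t⁻¹ = nrm t m q := by
    rw [htel q, hz m, mul_assoc, mul_inv_cancel, mul_one, hcm _ (hP q) m hm]
    group
  have h4 : π (n * (nrm t m q)⁻¹) = 1 := by
    rw [map_mul, map_inv, map_nrm, hnn, mul_inv_cancel]
  have h5 := hc _ h4 t
  have h6 : n = (n * (nrm t m q)⁻¹) * nrm t m q := by group
  have h7 : t * n * t⁻¹ = n := by
    calc t * n * t⁻¹ = (t * (n * (nrm t m q)⁻¹)) * nrm t m q * t⁻¹ := by group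
      _ = (n * (nrm t m q)⁻¹ * t) * nrm t m q * t⁻¹ := by rw [← h5]
      _ = (n * (nrm t m q)⁻¹) * (t * nrm t m q * t⁻¹) := by group
      _ = n := by rw [h3]; group
  rw [h7, mul_inv_cancel]

end Pool.Agent.Helper427.Schur
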