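import Mathlib

set_option autoImplicit false

namespace Pool.Agent.Helper427.Schur

open Finsupp

variable (G : Type) [Group G]

/-- The differential of 2-chains with integer coefficients. -/
noncomputable def dd : (G × G →₀ ℤ) →+ (G →₀ ℤ) :=
  liftAddHom fun x => singleAddHom x.2 - singleAddHom (x.1 * x.2) + singleAddHom x.1

/-- The 2-boundaries. -/
noncomputable def bd : AddSubgroup (G × G →₀ ℤ) :=
  AddSubgroup.closure {z | ∃ g h k : G, z = single (h, k) 1 - single (g * h, k) 1 +
    single (g, h * k) 1 - single (g, h) 1}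

/-- Chains modulo boundaries. -/
abbrev Mu := (G × G →₀ ℤ) ⧸ bd G

/-- The classes of cycles. -/
noncomputable def KK : AddSubgroup (Mu G) := (dd G).ker.map (QuotientAddGroup.mk' (bd G))

theorem iso_of_ker {A B C : Type} [AddCommGroup A] [AddCommGroup B] [AddCommGroup C]
    (f : A →+ B) (g : A →+ C) (hf : Function.Surjective f) (hg : Function.Surjective g)
    (h : ∀ a, f a = 0 ↔ g a = 0) : Nonempty (B ≃+ C) := by
  have hk : f.ker = g.ker := by
    ext a
    exact h a
  exact ⟨(QuotientAddGroup.quotientKerEquivOfSurjective f hf).symm.trans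
    ((QuotientAddGroup.quotientAddEquivOfEq hk).trans
      (QuotientAddGroup.quotientKerEquivOfSurjective g hg))⟩

theorem d21_eq (z : G × G →₀ ℤ) :
    (groupHomology.d₂₁ (Rep.trivial ℤ G ℤ)).hom z = dd G z := by
  have : (groupHomology.d₂₁ (Rep.trivial ℤ G ℤ)).hom.toAddMonoidHom = dd G := by
    ext x y
    simp [dd, groupHomology.d₂₁]
  exact DFunLike.congr_fun this z

theorem mem_boundaries (z : G × G →₀ ℤ) :
    z ∈ groupHomology.boundaries₂ (Rep.trivial ℤ G ℤ) ↔ z ∈ bd G := by
  constructor
  · rintro ⟨x, rfl⟩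
    change (groupHomology.d₃₂ (Rep.trivial ℤ G ℤ)).hom x ∈ bd G
    induction x using Finsupp.induction_linear with
    | zero => simp only [map_zero]; exact (bd G).zero_mem
    | add a b ha hb => rw [map_add]; exact (bd G).add_mem ha hb
    | single g n =>
      have h1 : (groupHomology.d₃₂ (Rep.trivial ℤ G ℤ)).hom (single g n) =
        n • ((single (g.2.1, g.2.2) 1 - single (g.1 * g.2.1, g.2.2) 1 +
          single (g.1, g.2.1 * g.2.2) 1 - single (g.1, g.2.1) 1 : G × G →₀ ℤ)) := by
        rw [groupHomology.d₃₂_single]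
        simp [smul_sub, smul_add, Finsupp.smul_single]
      rw [h1]
      exact (bd G).zsmul_mem (AddSubgroup.subset_closure ⟨g.1, g.2.1, g.2.2, rfl⟩) n
  · intro h
    induction h using AddSubgroup.closure_induction with
    | mem x hx =>
      obtain ⟨g, h, k, rfl⟩ := hx
      refine ⟨single (g, h, k) 1, ?_⟩
      change (groupHomology.d₃₂ (Rep.trivial ℤ G ℤ)).hom (single (g, h, k) 1) = _
      rw [groupHomology.d₃₂_single]
      simp
    | zero => exact Submodule.zero_mem _
    | add x y _ _ hx hy => exact Submodule.add_mem _ hx hy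
    | neg x _ hx => exact Submodule.neg_mem _ hx

theorem H2_iso : Nonempty (KK G ≃+ groupHomology.H2 (Rep.trivial ℤ G ℤ)) := by
  let f : groupHomology.cycles₂ (Rep.trivial ℤ G ℤ) →+ KK G :=
    { toFun := fun x => ⟨QuotientAddGroup.mk' (bd G) x.1,
        ⟨x.1, by
          have := LinearMap.mem_ker.1 x.2
          change dd G x.1 = 0
          rw [← d21_eq]
          exact this, rfl⟩⟩
      map_zero' := rfl
      map_add' := fun x y => rfl }
  let g : groupHomology.cycles₂ (Rep.trivial ℤ G ℤ) →+
      groupHomology.H2 (Rep.trivial ℤ G ℤ) :=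
    (groupHomology.H2π (Rep.trivial ℤ G ℤ)).hom.toAddMonoidHom
  refine iso_of_ker f g ?_ ?_ ?_
  · rintro ⟨_, z, hz, rfl⟩
    refine ⟨⟨z, ?_⟩, rfl⟩
    refine LinearMap.mem_ker.2 ?_
    have := d21_eq G z
    rw [show dd G z = 0 from hz] at this
    exact this
  · exact (ModuleCat.epi_iff_surjective _).1
      (inferInstance : CategoryTheory.Epi (groupHomology.H2π (Rep.trivial ℤ G ℤ)))
  · intro x
    have h1 : g x = 0 ↔ x.1 ∈ groupHomology.boundaries₂ (Rep.trivial ℤ G ℤ) :=
      groupHomology.H2π_eq_zero_iff x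
    rw [h1, mem_boundaries]
    change (⟨QuotientAddGroup.mk' (bd G) x.1, _⟩ : KK G) = 0 ↔ _
    rw [Subtype.ext_iff]
    exact QuotientAddGroup.eq_zero_iff x.1

end Pool.Agent.Helper427.Schur
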