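import Pool.Agent.Helper427.Schur.Fun

set_option autoImplicit false

namespace Pool.Agent.Helper427.Schur

open Finsupp Polynomial

section Quad

variable {S : Type} [CommRing S] (ξ : S)

/-- The quadratic algebra `S[ω]/(ω² - (2 - ξ) ω + 1)`. -/
abbrev QQ := QuadraticAlgebra S (-1) (2 - ξ)

/-- The functional `re + im`. -/
def BB : QQ ξ →+ S where
  toFun x := x.re + x.im
  map_zero' := by simp
  map_add' x y := by
    simp only [QuadraticAlgebra.re_add, QuadraticAlgebra.im_add]; ring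

/-- The generator. -/
def om0 : QQ ξ := ⟨0, 1⟩

theorem star_om0 : star (om0 ξ) * om0 ξ = 1 := by
  ext <;> simp [om0, QuadraticAlgebra.re_one, QuadraticAlgebra.im_one]

theorem BB_left (α : S) (h : ξ * α = 0) (y : QQ ξ) : BB ξ ((⟨-α, α⟩ : QQ ξ) * y) = 0 := by
  simp only [BB, AddMonoidHom.coe_mk, ZeroHom.coe_mk, QuadraticAlgebra.re_mul,
    QuadraticAlgebra.im_mul]
  linear_combination (- y.im) * h

theorem BB_left' (α : S) (h : ξ * α = 0) (y : QQ ξ) :
    BB ξ (star (⟨-α, α⟩ : QQ ξ) * y) = 0 := by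
  simp only [BB, AddMonoidHom.coe_mk, ZeroHom.coe_mk, QuadraticAlgebra.re_mul,
    QuadraticAlgebra.im_mul, QuadraticAlgebra.star_mk]
  linear_combination (- y.re) * h

end Quad

section Low

variable {C N S : Type} [CommGroup C] [CommRing N] [CommRing S] (ξ : S)
  (Φ : MonoidAlgebra ℤ C →+* QQ ξ) (t : C) (ht : Φ (MonoidAlgebra.of ℤ C t) = om0 ξ)

include ht

theorem Phi_inv : Φ (MonoidAlgebra.of ℤ C t⁻¹) = star (om0 ξ) := by
  have h1 := congrArg Φ (of_mul_inv t)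
  rw [map_mul, ht, map_one] at h1
  have h2 := star_om0 ξ
  calc Φ (MonoidAlgebra.of ℤ C t⁻¹)
      = (star (om0 ξ) * om0 ξ) * Φ (MonoidAlgebra.of ℤ C t⁻¹) := by rw [h2, one_mul]
    _ = star (om0 ξ) * (om0 ξ * Φ (MonoidAlgebra.of ℤ C t⁻¹)) := by ring
    _ = star (om0 ξ) := by rw [h1, mul_one]

theorem Phi_ww : Φ (ww t) = algebraMap S (QQ ξ) ξ := by
  rw [ww, map_sub, map_sub, ht, Phi_inv ξ Φ t ht, map_ofNat]
  ext <;> simp [om0, QuadraticAlgebra.re_ofNat, QuadraticAlgebra.im_ofNat]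

theorem Phi_aeval (g : ℤ[X]) : Φ (aeval (ww t) g) = algebraMap S (QQ ξ) (aeval ξ g) := by
  induction g using Polynomial.induction_on' with
  | add p q hp hq => rw [map_add, map_add, hp, hq, map_add, map_add]
  | monomial n r =>
    rw [aeval_monomial, map_mul, map_pow, Phi_ww ξ Φ t ht, aeval_monomial, map_mul, map_pow]
    congr 1
    simp

theorem Phi_bar (hgen : ∀ s : C, ∃ i : ℕ, t ^ i = s) (x : MonoidAlgebra ℤ C) :
    Φ (bar x) = star (Φ x) := by
  induction x using MonoidAlgebra.induction_on with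
  | of m =>
    obtain ⟨i, rfl⟩ := hgen m
    rw [bar_of, ← inv_pow, map_pow, map_pow, Phi_inv ξ Φ t ht, map_pow, map_pow, star_pow, ht]
  | add x y hx hy => rw [map_add, map_add, hx, hy, map_add, star_add]
  | smul r x hx =>
    rw [map_zsmul, map_zsmul, hx, map_zsmul, star_zsmul]

theorem Phi_ff (a b : ℤ[X]) (h1 : aeval ξ (a + b) = 0) :
    Φ (ff t a b) = (⟨- aeval ξ a, aeval ξ a⟩ : QQ ξ) := by
  have h2 : aeval ξ b = - aeval ξ a := by
    rw [map_add] at h1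
    linear_combination h1
  rw [ff, map_add, map_mul, Phi_aeval ξ Φ t ht, Phi_aeval ξ Φ t ht, map_sub, ht, map_ofNat, h2]
  ext
  · simp [om0, QuadraticAlgebra.re_ofNat, QuadraticAlgebra.im_ofNat]; ring
  · simp [om0, QuadraticAlgebra.re_ofNat, QuadraticAlgebra.im_ofNat]

variable (hgen : ∀ s : C, ∃ i : ℕ, t ^ i = s)
  (mk : MonoidAlgebra ℤ C →+* N) (hsurj : Function.Surjective mk) (a b : ℤ[X]) (L : ℤ)
  (hL : (L : S) = 0) (h1 : aeval ξ (a + b) = 0) (h2 : aeval ξ (X * b) = 0)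
  (hker : ∀ x, mk x = 0 → ∃ y z, x = ff t a b * y + (L : MonoidAlgebra ℤ C) * z)

include hL h1 hker in
theorem Phi_ker (x : MonoidAlgebra ℤ C) (hx : mk x = 0) :
    ∃ y, Φ x = (⟨- aeval ξ a, aeval ξ a⟩ : QQ ξ) * y := by
  obtain ⟨y, z, rfl⟩ := hker x hx
  refine ⟨Φ y, ?_⟩
  rw [map_add, map_mul, map_mul, Phi_ff ξ Φ t ht a b h1, map_intCast]
  have : (L : QQ ξ) = 0 := by
    have h3 : algebraMap S (QQ ξ) (L : S) = (L : QQ ξ) := map_intCast _ _
    rw [← h3, hL, map_zero]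
  rw [this, zero_mul, add_zero]

omit ht in
include h1 h2 in
theorem xi_al : ξ * aeval ξ a = 0 := by
  rw [map_add] at h1
  rw [map_mul, aeval_X] at h2
  linear_combination ξ * h1 - h2

/-- The bilinear form. -/
noncomputable def be (x y : N) : S :=
  BB ξ (star (Φ (Function.surjInv hsurj x)) * Φ (Function.surjInv hsurj y))

include hL h1 h2 hker in
theorem be_mk (g k : MonoidAlgebra ℤ C) :
    be ξ Φ mk hsurj (mk g) (mk k) = BB ξ (star (Φ g) * Φ k) := by
  set g' := Function.surjInv hsurj (mk g) with hg'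
  set k' := Function.surjInv hsurj (mk k) with hk'
  have e1 : mk g' = mk g := Function.surjInv_eq hsurj _
  have e2 : mk k' = mk k := Function.surjInv_eq hsurj _
  obtain ⟨y, hy⟩ := Phi_ker ξ Φ t ht mk a b L hL h1 hker (g' - g)
    (by rw [map_sub, e1, sub_self])
  obtain ⟨z, hz⟩ := Phi_ker ξ Φ t ht mk a b L hL h1 hker (k' - k)
    (by rw [map_sub, e2, sub_self])
  have h3 := xi_al ξ a b h1 h2
  rw [map_sub, sub_eq_iff_eq_add] at hy hz
  change BB ξ (star (Φ g') * Φ k') = _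
  rw [hy, hz, star_add, star_mul]
  have h4 : (star y * star (⟨-aeval ξ a, aeval ξ a⟩ : QQ ξ) + star (Φ g)) *
      ((⟨-aeval ξ a, aeval ξ a⟩ : QQ ξ) * z + Φ k) =
      star (⟨-aeval ξ a, aeval ξ a⟩ : QQ ξ) *
        (star y * ((⟨-aeval ξ a, aeval ξ a⟩ : QQ ξ) * z + Φ k)) +
      (⟨-aeval ξ a, aeval ξ a⟩ : QQ ξ) * (star (Φ g) * z) + star (Φ g) * Φ k := by ring
  rw [h4, map_add, map_add, BB_left' ξ _ h3, BB_left ξ _ h3, zero_add, zero_add]

/-- The cocycle. -/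
noncomputable def bc (x y : Sd (chi mk)) : S := be ξ Φ mk hsurj x.n (chi mk x.s * y.n)

include hL h1 h2 hker hgen in
theorem bc_coc : IsCoc (bc ξ Φ mk hsurj) := by
  intro x y z
  obtain ⟨gx, hx⟩ := hsurj x.n
  obtain ⟨gy, hy⟩ := hsurj y.n
  obtain ⟨gz, hz⟩ := hsurj z.n
  have hs : ∀ s, (chi mk) s = mk (MonoidAlgebra.of ℤ C s) := fun s => rfl
  simp only [bc, Sd.mul_n, Sd.mul_s, ← hx, ← hy, ← hz, hs, ← map_mul, ← map_add,
    be_mk ξ Φ t ht mk hsurj a b L hL h1 h2 hker]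
  have h5 : star (Φ (MonoidAlgebra.of ℤ C x.s)) * Φ (MonoidAlgebra.of ℤ C x.s) = 1 := by
    rw [← Phi_bar ξ Φ t ht hgen, bar_of, ← map_mul, mul_comm, of_mul_inv, map_one]
  congr 1
  simp only [map_add, map_mul, star_add, star_mul]
  linear_combination (star (Φ gy) * Φ (MonoidAlgebra.of ℤ C y.s) * Φ gz) * h5

theorem C1_bc (h : ℤ[X]) :
    C1 mk (bc_coc ξ Φ t ht hgen mk hsurj a b L hL h1 h2 hker) t h = ξ * aeval ξ h := by
  rw [C1_apply, CC_apply, Sd.om]
  simp only [bc, Sd.io, map_one, one_mul]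
  rw [← map_one mk, be_mk ξ Φ t ht mk hsurj a b L hL h1 h2 hker,
    be_mk ξ Φ t ht mk hsurj a b L hL h1 h2 hker, map_one, star_one, one_mul, mul_one, map_mul,
    ht, Phi_aeval ξ Φ t ht]
  simp [BB, om0]
  ring

end Low

end Pool.Agent.Helper427.Schur
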