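import Pool.Agent.Helper427.Schur.Coc

set_option autoImplicit false

namespace Pool.Agent.Helper427.Schur

open Finsupp

/-- The semidirect product `N ⋊ C` attached to a character `χ : C →* N`. -/
@[ext] structure Sd {C N : Type} [CommGroup C] [CommRing N] (χ : C →* N) where
  n : N
  s : C

namespace Sd

variable {C N : Type} [CommGroup C] [CommRing N] {χ : C →* N}

instance : Mul (Sd χ) := ⟨fun x y => ⟨x.n + χ x.s * y.n, x.s * y.s⟩⟩
instance : One (Sd χ) := ⟨⟨0, 1⟩⟩
instance : Inv (Sd χ) := ⟨fun x => ⟨- (χ x.s⁻¹ * x.n), x.s⁻¹⟩⟩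

theorem mul_n (x y : Sd χ) : (x * y).n = x.n + χ x.s * y.n := rfl
theorem mul_s (x y : Sd χ) : (x * y).s = x.s * y.s := rfl
theorem one_n : (1 : Sd χ).n = 0 := rfl
theorem one_s : (1 : Sd χ).s = 1 := rfl
theorem inv_n (x : Sd χ) : (x⁻¹).n = - (χ x.s⁻¹ * x.n) := rfl
theorem inv_s (x : Sd χ) : (x⁻¹).s = x.s⁻¹ := rfl

instance : Group (Sd χ) :=
  Group.ofLeftAxioms
    (by
      intro x y z
      ext
      · simp only [mul_n, mul_s, map_mul]; ring
      · simp only [mul_s, mul_assoc])
    (by
      intro x
      ext
      · simp only [mul_n, one_n, one_s, map_one]; ring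
      · simp only [mul_s, one_s, one_mul])
    (by
      intro x
      ext
      · simp only [mul_n, inv_n, inv_s, one_n]; ring
      · simp only [mul_s, inv_s, one_s, inv_mul_cancel])

/-- The projection to `C`. -/
def pr : Sd χ →* C where
  toFun := Sd.s
  map_one' := rfl
  map_mul' _ _ := rfl

/-- The inclusion of `N`. -/
def io (n : N) : Sd χ := ⟨n, 1⟩

/-- The section of `C`. -/
def co (s : C) : Sd χ := ⟨0, s⟩

theorem io_mul (a b : N) : (io a : Sd χ) * io b = io (a + b) := by
  ext
  · simp [io, mul_n]
  · simp [io, mul_s]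

theorem io_comm (a b : N) : (io a : Sd χ) * io b = io b * io a := by
  rw [io_mul, io_mul, add_comm]

theorem co_mul_io (s : C) (a : N) : (co s : Sd χ) * io a = ⟨χ s * a, s⟩ := by
  ext
  · simp [io, co, mul_n]
  · simp [io, co, mul_s]

theorem io_mul_co (s : C) (a : N) : (io a : Sd χ) * co s = ⟨a, s⟩ := by
  ext
  · simp [io, co, mul_n]
  · simp [io, co, mul_s]

theorem conj (s : C) (a : N) : (co s : Sd χ) * io a * (co s)⁻¹ = io (χ s * a) := by
  rw [mul_inv_eq_iff_eq_mul, co_mul_io, io_mul_co]

theorem co_pow (s : C) (k : ℕ) : (co s : Sd χ) ^ k = co (s ^ k) := by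
  induction k with
  | zero => simp [co]; rfl
  | succ k ih =>
    rw [pow_succ, ih, pow_succ]
    ext
    · simp [co, mul_n]
    · simp [co, mul_s]

theorem nrm_eq (s : C) (a : N) (k : ℕ) :
    nrm (co s : Sd χ) (io a) k = io ((∑ i ∈ Finset.range k, χ s ^ i) * a) := by
  induction k with
  | zero => simp [nrm, io]; rfl
  | succ k ih =>
    rw [nrm, ih, co_pow, conj, io_mul, Finset.sum_range_succ, map_pow, add_mul]

theorem pr_eq_one (x : Sd χ) (hx : pr x = 1) : x = io x.n := by
  ext
  · rfl
  · exact hx

section Omega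

variable {M : Type} [AddCommGroup M] {c : Sd χ → Sd χ → M} (hc : IsCoc c)

/-- The alternating form of a cocycle on `N`. -/
def om (c : Sd χ → Sd χ → M) (a b : N) : M := c (io a) (io b) - c (io b) (io a)

theorem om_self (a : N) : om c a a = 0 := sub_self _

theorem om_swap (a b : N) : om c a b = - om c b a := by
  simp [om]

include hc

theorem om_add_left (a b d : N) : om c (a + b) d = om c a d + om c b d := by
  unfold om
  have := hc.omega_add (io a) (io b) (io d) (io_comm _ _) (io_comm _ _)
  rw [io_mul] at this
  exact this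

theorem om_add_right (a b d : N) : om c d (a + b) = om c d a + om c d b := by
  rw [om_swap, om_add_left hc, om_swap a, om_swap b]
  abel

theorem om_conj (s : C) (a b : N) : om c (χ s * a) (χ s * b) = om c a b := by
  unfold om
  have := hc.omega_conj (co s) (io a) (io b) (io_comm _ _)
  rw [conj, conj] at this
  exact this

/-- `om` as an additive hom in the right variable. -/
def omr (a : N) : N →+ M where
  toFun := om c a
  map_zero' := by
    have := om_add_right hc 0 0 a
    rw [add_zero] at this
    exact left_eq_add.1 this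
  map_add' x y := om_add_right hc x y a

/-- `om` as an additive hom in the left variable. -/
def oml (a : N) : N →+ M where
  toFun x := om c x a
  map_zero' := by
    have := om_add_left hc 0 0 a
    rw [add_zero] at this
    exact left_eq_add.1 this
  map_add' x y := om_add_left hc x y a

end Omega

end Sd

end Pool.Agent.Helper427.Schur
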